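import Pool.Agent.Lib.MP_d0d59f_nt.AA.U2Step

/-! Power saving in the almost bounded orbits theorem: definitions. Lists: HEAD = LAST step in time,
`e.take j` = the last `j` steps, `e.drop i` = the path without its last `i` steps. -/

namespace Pool.Agent.Lib.MP_d0d59f_nt.PS

open Finset AA

/-- For every `j` the last `j` steps have sum at least `19 j / 10`. -/
def bar (e : List ℕ) : Prop := ∀ j ≤ e.length, 19 * j ≤ 10 * (e.take j).sum

/-- The same for `j ≥ n` only. -/
def late (n : ℕ) (e : List ℕ) : Prop := ∀ j ≤ e.length, n ≤ j → 19 * j ≤ 10 * (e.take j).sum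

noncomputable instance : DecidablePred bar := fun _ => Classical.dec _
noncomputable instance (n : ℕ) : DecidablePred (late n) := fun _ => Classical.dec _

/-- `k(y) = ⌊log₂ y / 5000⌋`. -/
noncomputable def kp (y : ℝ) : ℕ := ⌊Real.logb 2 y / 5000⌋₊

/-- As `densU`, for the classes modulo `3^m`, `m² ≤ kp y`. -/
def densP (d : ℤ) (B β y : ℝ) : Prop :=
  ∀ (m : ℕ) (r : ℤ) (t : ℕ), m * m ≤ kp y → 8 * Real.logb 2 y ≤ t →
    (cnt d (|(d : ℝ)| * B) t m r (|(d : ℝ)| * y) : ℝ) ≤ β * (|(d : ℝ)| * y / (2 * 3 ^ m))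

end Pool.Agent.Lib.MP_d0d59f_nt.PS
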