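import Pool.Agent.Lib.MP_d0d59f_nt.PS.Defs

namespace Pool.Agent.Lib.MP_d0d59f_nt.PS

open Finset AA

/-- `X i := 10 (e.drop i).sum - 19 (2n - i)` (integers). Take the smallest `i ≤ 2n` maximizing `X`
(`Finset.exists_max_image`, or strong induction / `Nat.find`). For `j ≤ 2n - i`,
`(e.drop i).sum = ((e.drop i).take j).sum + (e.drop (i+j)).sum` (`List.take_append_drop`, `List.drop_drop`) and `X i ≥ X (i+j)`
give `19 j ≤ 10 ((e.drop i).take j).sum`. If `i > n`, then `late` with `j = i`
(`e.sum = (e.take i).sum + (e.drop i).sum`) gives `X 0 ≥ X i`, so `0 < i` is also a maximizer, contradiction. -/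
theorem exists_bar {n : ℕ} {e : List ℕ} (hl : e.length = 2 * n) (h : late n e) :
    ∃ i ≤ n, bar (e.drop i) := by
  obtain ⟨i, hi, hmax⟩ := Finset.exists_max_image (range (n + 1))
    (fun i => 10 * (((e.drop i).sum : ℕ) : ℤ) + 19 * (i : ℤ)) ⟨0, by simp⟩
  have hi' := mem_range.1 hi
  refine ⟨i, Nat.lt_succ_iff.1 hi', ?_⟩
  intro j hj
  rw [List.length_drop, hl] at hj
  have e1 : ((e.drop i).take j).sum + (e.drop (i + j)).sum = (e.drop i).sum := by
    rw [← List.drop_drop, ← List.sum_append, List.take_append_drop]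
  have key : 10 * (((e.drop (i + j)).sum : ℕ) : ℤ) + 19 * ((i + j : ℕ) : ℤ)
      ≤ 10 * (((e.drop i).sum : ℕ) : ℤ) + 19 * (i : ℤ) := by
    by_cases hc : i + j ≤ n
    · exact hmax (i + j) (by simp only [mem_range]; omega)
    · have h0 := hmax 0 (by simp)
      have h1 := h (i + j) (by omega) (by omega)
      have e2 : (e.take (i + j)).sum + (e.drop (i + j)).sum = e.sum := by
        rw [← List.sum_append, List.take_append_drop]
      simp only [List.drop_zero, Nat.cast_zero, mul_zero, add_zero] at h0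
      omega
  omega

end Pool.Agent.Lib.MP_d0d59f_nt.PS
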