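import Pool.Agent.Lib.MP_d0d59f_nt.PS.Defs

namespace Pool.Agent.Lib.MP_d0d59f_nt.PS

open Finset AA

theorem r02_cc_eq_sum (e : List ℕ) :
    (cc e : ℝ) = ∑ j ∈ range e.length, (3 : ℝ) ^ j * 2 ^ ((e.drop (j + 1)).sum) := by
  induction e with
  | nil => simp [cc]
  | cons a e ih =>
    rw [cc, List.length_cons, Finset.sum_range_succ']
    push_cast
    rw [ih, Finset.mul_sum]
    simp only [List.drop_succ_cons, List.drop_zero, pow_zero, one_mul]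
    rw [add_comm]
    congr 1
    refine Finset.sum_congr rfl fun j _ => ?_
    rw [pow_succ]
    ring

theorem r02_three_pow_le {i S : ℕ} (h : 19 * i ≤ 10 * S) :
    (3 : ℝ) ^ i ≤ (81 / 100 : ℝ) ^ i * 2 ^ S := by
  have h0 : (0 : ℝ) ≤ (81 / 100 : ℝ) ^ i * 2 ^ S := by positivity
  refine le_of_pow_le_pow_left₀ (n := 10) (by norm_num) h0 ?_
  have h1 : ((3 : ℝ) ^ 10) ^ i ≤ ((81 / 100 : ℝ) ^ 10 * 2 ^ 19) ^ i :=
    pow_le_pow_left₀ (by norm_num) (by norm_num) i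
  have h2 : (2 : ℝ) ^ (19 * i) ≤ 2 ^ (10 * S) := pow_le_pow_right₀ (by norm_num) h
  have h3 : (0 : ℝ) ≤ (81 / 100 : ℝ) ^ (10 * i) := by positivity
  calc ((3 : ℝ) ^ i) ^ 10 = ((3 : ℝ) ^ 10) ^ i := by rw [← pow_mul, ← pow_mul, mul_comm]
    _ ≤ ((81 / 100 : ℝ) ^ 10 * 2 ^ 19) ^ i := h1
    _ = (81 / 100 : ℝ) ^ (10 * i) * 2 ^ (19 * i) := by rw [mul_pow, ← pow_mul, ← pow_mul]
    _ ≤ (81 / 100 : ℝ) ^ (10 * i) * 2 ^ (10 * S) := mul_le_mul_of_nonneg_left h2 h3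
    _ = ((81 / 100 : ℝ) ^ i * 2 ^ S) ^ 10 := by
      rw [mul_pow, ← pow_mul, ← pow_mul, mul_comm 10 i, mul_comm 10 S]

theorem r02_geom_le (n : ℕ) : ∑ j ∈ range n, (81 / 100 : ℝ) ^ (j + 1) ≤ 6 := by
  have h : ∀ n : ℕ, ∑ j ∈ range n, (81 / 100 : ℝ) ^ (j + 1) = (81 / 19) * (1 - (81 / 100) ^ n) := by
    intro n
    induction n with
    | zero => simp
    | succ n ih => rw [Finset.sum_range_succ, ih, pow_succ]; ring
  rw [h]
  have h1 : (0 : ℝ) ≤ (81 / 100 : ℝ) ^ n := by positivity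
  linarith

/-- First `(cc e : ℝ) = ∑ j ∈ range e.length, 3^j * 2^((e.drop (j+1)).sum)` by induction on `e`.
Then `e.sum = (e.take (j+1)).sum + (e.drop (j+1)).sum` and, by `bar`, with `S = (e.take (j+1)).sum`, `i = j+1`, `19 i ≤ 10 S`:
`3^(10 i) ≤ (81/100)^(10 i) * 2^(19 i) ≤ ((81/100)^i * 2^S)^10` (`3^10 ≤ (81/100)^10 * 2^19` by `norm_num`), so
`3^i ≤ (81/100)^i * 2^S` (`pow_le_pow_left₀` inverse: `le_of_pow_le_pow_left₀`). So each term is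
`≤ (1/3) (81/100)^(j+1) 2^(e.sum)`, and `∑ (81/100)^(j+1) ≤ 81/19 ≤ 6`. -/
theorem cc_le_bar {e : List ℕ} (h : bar e) : (cc e : ℝ) ≤ 2 * 2 ^ e.sum := by
  rw [r02_cc_eq_sum]
  have hpos : (0 : ℝ) < 2 ^ e.sum := by positivity
  have hterm : ∀ j ∈ range e.length, (3 : ℝ) ^ j * 2 ^ ((e.drop (j + 1)).sum) ≤
      (1 / 3 * 2 ^ e.sum) * (81 / 100 : ℝ) ^ (j + 1) := by
    intro j hj
    rw [Finset.mem_range] at hj
    have h1 := r02_three_pow_le (h (j + 1) (by omega))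
    have h2 : e.sum = (e.take (j + 1)).sum + (e.drop (j + 1)).sum := by
      rw [← List.sum_append, List.take_append_drop]
    have h3 : (0 : ℝ) ≤ 2 ^ ((e.drop (j + 1)).sum) := by positivity
    have h4 : (3 : ℝ) ^ j = 1 / 3 * 3 ^ (j + 1) := by rw [pow_succ]; ring
    calc (3 : ℝ) ^ j * 2 ^ ((e.drop (j + 1)).sum)
        = 1 / 3 * (3 : ℝ) ^ (j + 1) * 2 ^ ((e.drop (j + 1)).sum) := by rw [h4]
      _ ≤ 1 / 3 * ((81 / 100 : ℝ) ^ (j + 1) * 2 ^ ((e.take (j + 1)).sum)) *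
            2 ^ ((e.drop (j + 1)).sum) := by
          refine mul_le_mul_of_nonneg_right ?_ h3
          exact mul_le_mul_of_nonneg_left h1 (by norm_num)
      _ = (1 / 3 * 2 ^ e.sum) * (81 / 100 : ℝ) ^ (j + 1) := by
          rw [h2, pow_add (2 : ℝ)]; ring
  refine (Finset.sum_le_sum hterm).trans ?_
  rw [← Finset.mul_sum]
  have h5 := r02_geom_le e.length
  nlinarith [mul_le_mul_of_nonneg_left h5 (by positivity : (0 : ℝ) ≤ 1 / 3 * 2 ^ e.sum)]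

end Pool.Agent.Lib.MP_d0d59f_nt.PS
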