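import Pool.Agent.Lib.MP_d0d59f_nt.PS.R02
import Pool.Agent.Lib.MP_d0d59f_nt.AA.A6Cc
import Pool.Agent.Lib.MP_d0d59f_nt.AA.C2aHz
import Pool.Agent.Lib.MP_d0d59f_nt.AA.C7aBack

namespace Pool.Agent.Lib.MP_d0d59f_nt.PS

open Finset AA

open Classical in
/-- All `e` of the filter have the same `cc e` modulo `3^K`: `hz_eq_iff` (write `Y = (M : ZMod (3^K))` with `M = (Y.val : ℤ)`), the sums and
lengths are equal, `d` is invertible modulo `3` (compare `c7a_unit`). `cc` is injective on `comps n l` (`cc_inj`) and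
`cc e ≤ 2 * 2^l = 2^(l+1)` (`cc_le_bar`). So the filter injects into the natural numbers `≤ 2^(l+1)` of one residue class modulo `3^K`
(which are at most `2^(l+1)/3^K + 1`, `Nat.count_modEq_card` or `AA.card_class_le`, or: the class of `x ↦ x / 3^K` is injective on a class, values `≤ 2^(l+1)/3^K`). -/
theorem card_bar_class {d : ℤ} (h3 : ¬ (3 : ℤ) ∣ d) (r : ℤ) (n l K : ℕ) (Y : ZMod (3 ^ K)) :
    (((comps n l).filter fun e => bar e ∧ hz d r K e = Y).card : ℝ) ≤ 2 * 2 ^ l / 3 ^ K + 1 := by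
  have h3K : 0 < 3 ^ K := by positivity
  have hcard : ((comps n l).filter fun e => bar e ∧ hz d r K e = Y).card ≤
      (Finset.range (2 ^ (l + 1) / 3 ^ K + 1)).card := by
    apply Finset.card_le_card_of_injOn (fun e => cc e / 3 ^ K)
    · intro e he
      obtain ⟨h1, h2, -⟩ := Finset.mem_filter.1 he
      have h4 := cc_le_bar h2
      rw [(mem_comps.1 h1).2.1] at h4
      have h5 : cc e ≤ 2 ^ (l + 1) := by
        rw [pow_succ, mul_comm]
        exact_mod_cast h4
      have h6 : cc e / 3 ^ K < 2 ^ (l + 1) / 3 ^ K + 1 := Nat.lt_succ_of_le (Nat.div_le_div_right h5)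
      exact Finset.mem_coe.2 (Finset.mem_range.2 h6)
    · intro e he e' he' hee
      obtain ⟨h1, -, h2⟩ := Finset.mem_filter.1 he
      obtain ⟨h1', -, h2'⟩ := Finset.mem_filter.1 he'
      have hee' : cc e / 3 ^ K = cc e' / 3 ^ K := hee
      have hmod : cc e % 3 ^ K = cc e' % 3 ^ K := by
        have hM : hz d r K e = ((Y.val : ℤ) : ZMod (3 ^ K)) := by
          rw [h2]; simp
        have hM' : hz d r K e' = ((Y.val : ℤ) : ZMod (3 ^ K)) := by
          rw [h2']; simp
        have k1 := (hz_eq_iff d r K e _).1 hM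
        have k2 := (hz_eq_iff d r K e' _).1 hM'
        rw [(mem_comps.1 h1).2.1, (mem_comps.1 h1).1] at k1
        rw [(mem_comps.1 h1').2.1, (mem_comps.1 h1').1] at k2
        have k3 := k1.symm.trans k2
        have k4 : d * (cc e : ℤ) ≡ d * (cc e' : ℤ) [ZMOD 3 ^ K] := Int.ModEq.add_left_cancel' _ k3
        have k5 := (ZMod.intCast_eq_intCast_iff (d * (cc e : ℤ)) (d * (cc e' : ℤ)) (3 ^ K)).2
          (by push_cast; exact k4)
        push_cast at k5
        have k6 := (c7a_unit h3 K).mul_left_cancel k5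
        exact (ZMod.natCast_eq_natCast_iff' _ _ _).1 k6
      apply cc_inj h1 h1'
      rw [← Nat.div_add_mod (cc e) (3 ^ K), ← Nat.div_add_mod (cc e') (3 ^ K), hee', hmod]
  rw [Finset.card_range] at hcard
  have h7 : (((comps n l).filter fun e => bar e ∧ hz d r K e = Y).card : ℝ) ≤
      ((2 ^ (l + 1) / 3 ^ K + 1 : ℕ) : ℝ) := by exact_mod_cast hcard
  refine h7.trans ?_
  push_cast
  have h8 : (((2 ^ (l + 1) / 3 ^ K : ℕ)) : ℝ) ≤ ((2 ^ (l + 1) : ℕ) : ℝ) / ((3 ^ K : ℕ) : ℝ) :=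
    Nat.cast_div_le
  push_cast at h8
  have h9 : (2 : ℝ) * 2 ^ l = 2 ^ (l + 1) := by rw [pow_succ, mul_comm]
  rw [h9]
  linarith

end Pool.Agent.Lib.MP_d0d59f_nt.PS
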