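import Pool.Agent.Lib.MP_d0d59f_nt.PS.R03
import Pool.Agent.Lib.MP_d0d59f_nt.AA.B4aWord

namespace Pool.Agent.Lib.MP_d0d59f_nt.PS

open Finset AA

/-- As the beginning of `AA.dens_word`: with `S = {M ∈ [w,2w) : M odd, bad d B (t-l) M}` (finite), exchange the sums:
`∑_e #{M ∈ S : hz d r (n+K) e = M} = ∑_{M ∈ S} #{e ∈ comps n l : bar e, hz d r (n+K) e = M} ≤ S.card (2*2^l/3^(n+K) + 1)` by
`card_bar_class`; `S.card = cnt d B (t-l) 0 0 w` (`N ≡ 0 [ZMOD 3^0]` is trivial). -/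
theorem flat_word {d : ℤ} (h3 : ¬ (3 : ℤ) ∣ d) (B : ℝ) (n K l t : ℕ) (r : ℤ) (w : ℝ) :
    ∑ e ∈ (comps n l).filter bar,
        (Set.ncard {M : ℤ | M ∈ itv w (2 * w) ∧ Odd M ∧
          hz d r (n + K) e = (M : ZMod (3 ^ (n + K))) ∧ bad d B (t - l) M} : ℝ) ≤
      (2 * 2 ^ l / 3 ^ (n + K) + 1) * (cnt d B (t - l) 0 0 w : ℝ) := by
  classical
  set S : Finset ℤ := (itv w (2 * w)).filter fun M => Odd M ∧ bad d B (t - l) M with hS
  have h1 : ∀ e ∈ (comps n l).filter bar,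
      (Set.ncard {M : ℤ | M ∈ itv w (2 * w) ∧ Odd M ∧
          hz d r (n + K) e = (M : ZMod (3 ^ (n + K))) ∧ bad d B (t - l) M} : ℝ)
        = ∑ M ∈ S, (if hz d r (n + K) e = (M : ZMod (3 ^ (n + K))) then (1 : ℝ) else 0) := by
    intro e _
    have hset : {M : ℤ | M ∈ itv w (2 * w) ∧ Odd M ∧
          hz d r (n + K) e = (M : ZMod (3 ^ (n + K))) ∧ bad d B (t - l) M}
        = ((S.filter fun M : ℤ => hz d r (n + K) e = (M : ZMod (3 ^ (n + K))) : Finset ℤ) :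
          Set ℤ) := by
      ext M
      simp only [Set.mem_ofPred_eq, Finset.coe_filter, hS, Finset.mem_filter]
      tauto
    rw [hset, Set.ncard_coe_finset, Finset.card_filter]
    push_cast
    rfl
  rw [Finset.sum_congr rfl h1, Finset.sum_comm]
  have h2 : ∀ M ∈ S, ∑ e ∈ (comps n l).filter bar,
      (if hz d r (n + K) e = (M : ZMod (3 ^ (n + K))) then (1 : ℝ) else 0)
      ≤ 2 * 2 ^ l / 3 ^ (n + K) + 1 := by
    intro M _
    refine le_trans (le_of_eq ?_) (card_bar_class h3 r n l (n + K) (M : ZMod (3 ^ (n + K))))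
    rw [← Finset.sum_filter, Finset.filter_filter, Finset.sum_const, nsmul_eq_mul, mul_one]
  refine (Finset.sum_le_sum h2).trans (le_of_eq ?_)
  rw [Finset.sum_const, nsmul_eq_mul, mul_comm]
  congr 1
  unfold cnt
  have hset : {N : ℤ | N ∈ itv w (2 * w) ∧ Odd N ∧ N ≡ 0 [ZMOD 3 ^ 0] ∧ bad d B (t - l) N}
      = (S : Set ℤ) := by
    ext M
    have : M ≡ 0 [ZMOD 3 ^ 0] := by
      rw [pow_zero]; exact Int.modEq_one
    simp only [Set.mem_ofPred_eq, hS, Finset.coe_filter]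
    tauto
  rw [hset, Set.ncard_coe_finset]

end Pool.Agent.Lib.MP_d0d59f_nt.PS
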