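import Pool.Agent.Lib.MP_d0d59f_nt.PS.Defs
import Pool.Agent.Lib.MP_d0d59f_nt.AA.B2Exc

namespace Pool.Agent.Lib.MP_d0d59f_nt.PS

open Finset AA

open Classical in
/-- `AA.exc_count` with `l1 = 0` and an additional condition `P` on the word: copy its proof, with `comps n l` replaced by `(comps n l).filter P`
(the cardinalities of the filters are at most those of `comps n l`, used for the error term). -/
theorem exc_countP {d : ℤ} (hd : Odd d) (P : List ℕ → Prop) (n L m : ℕ) (r : ℤ) (y : ℝ) (hy : 0 < y) :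
    (Set.ncard {N : ℤ | N ∈ itv y (2 * y) ∧ Odd N ∧ N ≡ r [ZMOD 3 ^ m] ∧
        ¬ ∃ (e : List ℕ) (M : ℤ), e.length = n ∧ P e ∧ e.sum ≤ L ∧ isPath d e N M} : ℝ) ≤
      y / (2 * 3 ^ m) * (1 - ∑ l ∈ range (L + 1), (1 / 2 : ℝ) ^ l * (((comps n l).filter P).card : ℝ))
        + 2 ^ (L + 1) := by
  classical
  set S : Finset ℤ := (itv y (2 * y)).filter fun N => Odd N ∧ N ≡ r [ZMOD 3 ^ m] with hS
  set Q : ℤ → Prop := fun N => ∃ (e : List ℕ) (M : ℤ), e.length = n ∧ P e ∧ e.sum ≤ L ∧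
    isPath d e N M with hQ
  have hset : {N : ℤ | N ∈ itv y (2 * y) ∧ Odd N ∧ N ≡ r [ZMOD 3 ^ m] ∧
        ¬ ∃ (e : List ℕ) (M : ℤ), e.length = n ∧ P e ∧ e.sum ≤ L ∧ isPath d e N M} =
      ((S.filter fun N => ¬ Q N : Finset ℤ) : Set ℤ) := by
    ext N
    simp only [Set.mem_ofPred_eq, Finset.coe_filter, hS, hQ, Finset.mem_filter, and_assoc]
  rw [hset, Set.ncard_coe_finset]
  have hsplit := Finset.card_filter_add_card_filter_not (s := S) Q
  have hSle : (S.card : ℝ) ≤ y / (2 * 3 ^ m) + 1 := by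
    have := card_odd_class_le y (2 * y) (by linarith) m r
    have h2 : (2 * y - y) = y := by ring
    rw [h2] at this
    exact this
  -- the union of the path classes
  set I : Finset (Σ _ : ℕ, List ℕ) := (range (L + 1)).sigma fun l => (comps n l).filter P with hI
  have hdisj : (I : Set (Σ _ : ℕ, List ℕ)).PairwiseDisjoint
      fun p => S.filter fun N => ∃ M, isPath d p.2 N M := by
    intro p hp q hq hpq
    rw [Function.onFun, Finset.disjoint_left]
    intro N hN1 hN2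
    rw [Finset.mem_filter] at hN1 hN2
    obtain ⟨_, M1, h1⟩ := hN1
    obtain ⟨_, M2, h2⟩ := hN2
    rw [Finset.mem_coe, hI, Finset.mem_sigma] at hp hq
    obtain ⟨hpl, hps, _⟩ := mem_comps.1 (Finset.mem_filter.1 hp.2).1
    obtain ⟨hql, hqs, _⟩ := mem_comps.1 (Finset.mem_filter.1 hq.2).1
    have h3 := (isPath_unique h1 h2 (by rw [hpl, hql])).1
    apply hpq
    obtain ⟨p1, p2⟩ := p
    obtain ⟨q1, q2⟩ := q
    simp only at h3 hps hqs
    subst h3
    rw [← hps, ← hqs]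
  have hsub : (I.biUnion fun p => S.filter fun N => ∃ M, isPath d p.2 N M) ⊆ S.filter Q := by
    intro N hN
    rw [Finset.mem_biUnion] at hN
    obtain ⟨p, hp, hN⟩ := hN
    rw [Finset.mem_filter] at hN
    obtain ⟨hNS, M, hM⟩ := hN
    rw [hI, Finset.mem_sigma, Finset.mem_range] at hp
    obtain ⟨hpl, hps, _⟩ := mem_comps.1 (Finset.mem_filter.1 hp.2).1
    rw [Finset.mem_filter]
    refine ⟨hNS, p.2, M, hpl, (Finset.mem_filter.1 hp.2).2, ?_, hM⟩
    rw [hps]; have := hp.1; omega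
  have hcard : ∑ l ∈ range (L + 1), ∑ e ∈ (comps n l).filter P,
      (y / (2 * 3 ^ m) * (1 / 2) ^ l - 1) ≤ ((S.filter Q).card : ℝ) := by
    have h1 : ((I.biUnion fun p => S.filter fun N => ∃ M, isPath d p.2 N M).card : ℝ) ≤
        ((S.filter Q).card : ℝ) := Nat.cast_le.2 (Finset.card_le_card hsub)
    rw [Finset.card_biUnion hdisj, hI, Finset.sum_sigma] at h1
    push_cast at h1
    refine le_trans ?_ h1
    refine Finset.sum_le_sum fun l _ => Finset.sum_le_sum fun e he => ?_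
    exact b2_path_count hd (Finset.mem_filter.1 he).1 m r y hy
  have hsum : ∑ l ∈ range (L + 1), ∑ e ∈ (comps n l).filter P,
      (y / (2 * 3 ^ m) * (1 / 2) ^ l - 1) =
      y / (2 * 3 ^ m) * (∑ l ∈ range (L + 1), (1 / 2 : ℝ) ^ l * (((comps n l).filter P).card : ℝ))
        - ∑ l ∈ range (L + 1), (((comps n l).filter P).card : ℝ) := by
    rw [Finset.mul_sum, ← Finset.sum_sub_distrib]
    refine Finset.sum_congr rfl fun l _ => ?_
    rw [Finset.sum_const, nsmul_eq_mul]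
    ring
  have hcomps : ∑ l ∈ range (L + 1), (((comps n l).filter P).card : ℝ) ≤ 2 ^ L := by
    have h1 := sum_card_comps_le n L
    have h2 : ∑ l ∈ range (L + 1), ((comps n l).filter P).card ≤
        ∑ l ∈ range (L + 1), (comps n l).card :=
      Finset.sum_le_sum fun l _ => Finset.card_le_card (Finset.filter_subset _ _)
    have h3 : ((∑ l ∈ range (L + 1), ((comps n l).filter P).card : ℕ) : ℝ) ≤
        ((2 ^ L : ℕ) : ℝ) := Nat.cast_le.2 (h2.trans h1)
    push_cast at h3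
    exact h3
  have hsplit' : ((S.filter Q).card : ℝ) + ((S.filter fun N => ¬ Q N).card : ℝ) = (S.card : ℝ) := by
    exact_mod_cast hsplit
  have hpow : (1 : ℝ) + 2 ^ L ≤ 2 ^ (L + 1) := by
    have : (1 : ℝ) ≤ 2 ^ L := one_le_pow₀ (by norm_num)
    rw [pow_succ]
    linarith
  rw [hsum] at hcard
  have hexp : y / (2 * 3 ^ m) * (1 - ∑ l ∈ range (L + 1),
      (1 / 2 : ℝ) ^ l * (((comps n l).filter P).card : ℝ)) =
      y / (2 * 3 ^ m) - y / (2 * 3 ^ m) * (∑ l ∈ range (L + 1),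
        (1 / 2 : ℝ) ^ l * (((comps n l).filter P).card : ℝ)) := by ring
  rw [hexp]
  linarith

end Pool.Agent.Lib.MP_d0d59f_nt.PS
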