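import Pool.Agent.Lib.MP_d0d59f_nt.PS.Defs
import Pool.Agent.Lib.MP_d0d59f_nt.AA.B1Path

namespace Pool.Agent.Lib.MP_d0d59f_nt.PS

open Finset AA

/-- Induction on `e` (for `i = 0` take `M' = M`; `a :: e`, `i + 1`: use the path of `e`). -/
theorem isPath_drop {d : ℤ} {e : List ℕ} {N M : ℤ} (h : isPath d e N M) (i : ℕ) (hi : i ≤ e.length) :
    ∃ M', isPath d (e.drop i) N M' := by
  induction e generalizing M i with
  | nil => exact ⟨M, by simpa using h⟩
  | cons a e ih =>
    cases i with
    | zero => exact ⟨M, by simpa using h⟩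
    | succ i =>
      obtain ⟨M', h1, _⟩ := h
      have hi' : i ≤ e.length := by
        have := hi
        simp only [List.length_cons] at this
        omega
      obtain ⟨M'', h2⟩ := ih h1 i hi'
      exact ⟨M'', by simpa using h2⟩

end Pool.Agent.Lib.MP_d0d59f_nt.PS
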