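import Pool.Agent.Lib.MP_d0d59f_nt.PS.Defs
import Pool.Agent.Lib.MP_d0d59f_nt.AA.A2Split
import Pool.Agent.Lib.MP_d0d59f_nt.AA.A3Nb
import Pool.Agent.Lib.MP_d0d59f_nt.AA.A5Tails

namespace Pool.Agent.Lib.MP_d0d59f_nt.PS

open Finset AA

theorem r07_num (j : ℕ) : ((18 / 19 : ℝ)⁻¹) ^ (19 * j / 10) * ((18 / 19 : ℝ) / (2 - 18 / 19)) ^ j ≤ (0.998 : ℝ) ^ j := by
  have h1 : ((18 / 19 : ℝ)⁻¹) = 19 / 18 := by norm_num
  have h2 : ((18 / 19 : ℝ) / (2 - 18 / 19)) = 9 / 10 := by norm_num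
  rw [h1, h2]
  rw [← pow_le_pow_iff_left₀ (by positivity) (by positivity) (show (10 : ℕ) ≠ 0 by norm_num)]
  calc ((19 / 18 : ℝ) ^ (19 * j / 10) * (9 / 10) ^ j) ^ 10
      = (19 / 18 : ℝ) ^ (19 * j / 10 * 10) * (9 / 10) ^ (j * 10) := by
        rw [mul_pow, ← pow_mul, ← pow_mul]
    _ ≤ (19 / 18 : ℝ) ^ (19 * j) * (9 / 10) ^ (j * 10) := by
        apply mul_le_mul_of_nonneg_right _ (by positivity)
        exact pow_le_pow_right₀ (by norm_num) (Nat.div_mul_le_self _ _)
    _ = ((19 / 18 : ℝ) ^ 19 * (9 / 10) ^ 10) ^ j := by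
        rw [mul_pow, ← pow_mul, ← pow_mul, Nat.mul_comm j 10]
    _ ≤ ((0.998 : ℝ) ^ 10) ^ j := by
        apply pow_le_pow_left₀ (by positivity)
        norm_num
    _ = ((0.998 : ℝ) ^ j) ^ 10 := by
        rw [← pow_mul, ← pow_mul, Nat.mul_comm j 10]

open Classical in
/-- `marginal_le` with `t = j`, `n = N - j`, `g e = 1` if `10 e.sum < 19 j` and `0` otherwise: the left side is
`≤ ∑_{s ≤ L, 10 s < 19 j} nb j s ≤ ∑_{s ≤ L0} nb j s` with `L0 = 19 j / 10` (for `j = 0` the left side is `0`), and by `a5_low j L0 (18/19)` this is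
`≤ (19/18)^L0 (9/10)^j =: V`, `V^10 ≤ ((19/18)^19 (9/10)^10)^j ≤ (0.998^10)^j` (`norm_num`), so `V ≤ 0.998^j`. -/
theorem marg_low (N L j : ℕ) (hj : j ≤ N) :
    ∑ l ∈ range (L + 1), (1 / 2 : ℝ) ^ l *
      (((comps N l).filter fun e => 10 * (e.take j).sum < 19 * j).card : ℝ) ≤ (0.998 : ℝ) ^ j := by
  let g : List ℕ → ℝ := fun e => if 10 * e.sum < 19 * j then 1 else 0
  have hg : ∀ e, 0 ≤ g e := fun e => by
    simp only [g]
    split_ifs <;> norm_num
  have h1 := marginal_le j (N - j) L g hg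
  have hN : j + (N - j) = N := by omega
  rw [hN] at h1
  have h2 : ∑ l ∈ range (L + 1), (1 / 2 : ℝ) ^ l *
      (((comps N l).filter fun e => 10 * (e.take j).sum < 19 * j).card : ℝ) =
      ∑ l ∈ range (L + 1), (1 / 2 : ℝ) ^ l * ∑ e ∈ comps N l, g (e.take j) := by
    refine Finset.sum_congr rfl fun l _ => ?_
    congr 1
    rw [Finset.card_filter]
    push_cast
    rfl
  rw [h2]
  refine h1.trans ?_
  have h3 : ∀ s ∈ range (L + 1), (1 / 2 : ℝ) ^ s * ∑ e1 ∈ comps j s, g e1 =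
      if 10 * s < 19 * j then nb j s else 0 := by
    intro s _
    have h4 : ∀ e1 ∈ comps j s, g e1 = if 10 * s < 19 * j then 1 else 0 := by
      intro e1 he1
      have := (mem_comps.1 he1).2.1
      simp only [g]
      rw [this]
    rw [Finset.sum_congr rfl h4, Finset.sum_const, nsmul_eq_mul]
    unfold nb
    split_ifs
    · rw [mul_one]
    · rw [mul_zero, mul_zero]
  rw [Finset.sum_congr rfl h3, ← Finset.sum_filter]
  have h5 : ∑ s ∈ (range (L + 1)).filter (fun s => 10 * s < 19 * j), nb j s ≤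
      ∑ s ∈ range (19 * j / 10 + 1), nb j s := by
    apply Finset.sum_le_sum_of_subset_of_nonneg
    · intro s hs
      rw [Finset.mem_filter] at hs
      rw [Finset.mem_range]
      omega
    · intro s _ _
      exact nb_nonneg _ _
  exact h5.trans ((a5_low j (19 * j / 10) (18 / 19) (by norm_num) (by norm_num)).trans (r07_num j))

open Classical in
/-- If `e ∈ comps (2n) l` is not `late n` then `10 (e.take j).sum < 19 j` for some `j ∈ [n, 2n]`: union bound and `marg_low`,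
`0.998^j ≤ 0.998^n`. -/
theorem prob_late (n L : ℕ) :
    ∑ l ∈ range (L + 1), (1 / 2 : ℝ) ^ l *
      (((comps (2 * n) l).filter fun e => ¬ late n e).card : ℝ) ≤ ((n : ℝ) + 1) * (0.998 : ℝ) ^ n := by
  have h1 : ∀ l, (((comps (2 * n) l).filter fun e => ¬ late n e).card : ℝ) ≤
      ∑ j ∈ Icc n (2 * n), (((comps (2 * n) l).filter fun e => 10 * (e.take j).sum < 19 * j).card : ℝ) := by
    intro l
    have h2 : ((comps (2 * n) l).filter fun e => ¬ late n e) ⊆
        (Icc n (2 * n)).biUnion fun j => (comps (2 * n) l).filter fun e => 10 * (e.take j).sum < 19 * j := by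
      intro e he
      rw [Finset.mem_filter] at he
      obtain ⟨he1, he2⟩ := he
      unfold late at he2
      push Not at he2
      obtain ⟨j, hj1, hj2, hj3⟩ := he2
      have hlen := (mem_comps.1 he1).1
      rw [Finset.mem_biUnion]
      exact ⟨j, Finset.mem_Icc.2 ⟨hj2, by omega⟩, Finset.mem_filter.2 ⟨he1, hj3⟩⟩
    exact_mod_cast (Finset.card_le_card h2).trans Finset.card_biUnion_le
  calc ∑ l ∈ range (L + 1), (1 / 2 : ℝ) ^ l *
      (((comps (2 * n) l).filter fun e => ¬ late n e).card : ℝ)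
      ≤ ∑ l ∈ range (L + 1), (1 / 2 : ℝ) ^ l * ∑ j ∈ Icc n (2 * n),
        (((comps (2 * n) l).filter fun e => 10 * (e.take j).sum < 19 * j).card : ℝ) := by
        refine Finset.sum_le_sum fun l _ => ?_
        exact mul_le_mul_of_nonneg_left (h1 l) (by positivity)
    _ = ∑ j ∈ Icc n (2 * n), ∑ l ∈ range (L + 1), (1 / 2 : ℝ) ^ l *
        (((comps (2 * n) l).filter fun e => 10 * (e.take j).sum < 19 * j).card : ℝ) := by
        simp only [Finset.mul_sum]
        rw [Finset.sum_comm]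
    _ ≤ ∑ j ∈ Icc n (2 * n), (0.998 : ℝ) ^ n := by
        refine Finset.sum_le_sum fun j hj => ?_
        rw [Finset.mem_Icc] at hj
        refine (marg_low (2 * n) L j hj.2).trans ?_
        exact pow_le_pow_of_le_one (by norm_num) (by norm_num) hj.1
    _ = ((n : ℝ) + 1) * (0.998 : ℝ) ^ n := by
        rw [Finset.sum_const, nsmul_eq_mul, Nat.card_Icc]
        have : 2 * n + 1 - n = n + 1 := by omega
        rw [this]
        push_cast
        ring

end Pool.Agent.Lib.MP_d0d59f_nt.PS
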