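import Pool.Agent.Lib.MP_d0d59f_nt.PS.R01
import Pool.Agent.Lib.MP_d0d59f_nt.PS.R05
import Pool.Agent.Lib.MP_d0d59f_nt.PS.R06
import Pool.Agent.Lib.MP_d0d59f_nt.PS.R07
import Pool.Agent.Lib.MP_d0d59f_nt.AA.B3aWord

namespace Pool.Agent.Lib.MP_d0d59f_nt.PS

open Finset AA

/-- Every `N` counted by `cnt d B t K r z` is either exceptional (no path of length `2n` with `late n` and sum `≤ L`: `exc_countP` with `P = late n`,
`(1/2)^l #filter (late n) = nb (2n) l - (1/2)^l #filter (¬ late n)`, `prob_late`), or has such a path `e`; by `exists_bar` and `isPath_drop`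
there is `i ≤ n` with `bar (e.drop i)` and a path coded by `e.drop i ∈ comps n' l`, `n' = 2n - i ∈ [n, 2n]`, `l = (e.drop i).sum ≤ L`. For each such word
use `count_word` (`n := n'`, `m := K`; needs `l ≤ t`). The number of words is at most `∑_{n'} 2^L = (n+1) 2^L` (`sum_card_comps_le`). Compare the proof of `AA.count_main`. -/
theorem flat_count {d : ℤ} (hd : Odd d) (B : ℝ) (n K L t : ℕ) (r : ℤ)
    (z : ℝ) (hz0 : 0 < z) (ht : L ≤ t) :
    (cnt d B t K r z : ℝ) ≤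
      ∑ n' ∈ Icc n (2 * n), ∑ l ∈ range (L + 1), ∑ e ∈ (comps n' l).filter bar,
        (Set.ncard {M : ℤ | M ∈ itv (3 ^ n' * z / 2 ^ l) (2 * (3 ^ n' * z / 2 ^ l)) ∧ Odd M ∧
          hz d r (n' + K) e = (M : ZMod (3 ^ (n' + K))) ∧ bad d B (t - l) M} : ℝ)
      + z / (2 * 3 ^ K) * ((1 - ∑ l ∈ range (L + 1), nb (2 * n) l) + ((n : ℝ) + 1) * (0.998 : ℝ) ^ n)
      + (|(d : ℝ)| + 3) * ((n : ℝ) + 1) * 2 ^ L := by
  classical
  set S : Set ℤ := {N : ℤ | N ∈ itv z (2 * z) ∧ Odd N ∧ N ≡ r [ZMOD 3 ^ K] ∧ bad d B t N} with hS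
  set E : Set ℤ := {N : ℤ | N ∈ itv z (2 * z) ∧ Odd N ∧ N ≡ r [ZMOD 3 ^ K] ∧
        ¬ ∃ (e : List ℕ) (M : ℤ), e.length = 2 * n ∧ late n e ∧ e.sum ≤ L ∧ isPath d e N M} with hE
  set W : List ℕ → Set ℤ := fun e => {N : ℤ | N ∈ itv z (2 * z) ∧ N ≡ r [ZMOD 3 ^ K] ∧
    bad d B t N ∧ ∃ M, isPath d e N M} with hW
  have hfin : ∀ V : Set ℤ, (∀ N ∈ V, N ∈ itv z (2 * z)) → V.Finite := fun V hV =>
    (itv z (2 * z)).finite_toSet.subset fun N hN => hV N hN
  have hEf : E.Finite := hfin _ fun N hN => hN.1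
  have hUf : (⋃ n' ∈ Icc n (2 * n), ⋃ l ∈ range (L + 1), ⋃ e ∈ (comps n' l).filter bar, W e).Finite := by
    apply hfin
    intro N hN
    simp only [Set.mem_iUnion] at hN
    obtain ⟨n', _, l, _, e, _, h⟩ := hN
    exact h.1
  have hsub : S ⊆ E ∪ ⋃ n' ∈ Icc n (2 * n), ⋃ l ∈ range (L + 1), ⋃ e ∈ (comps n' l).filter bar, W e := by
    intro N hN
    by_cases h : N ∈ E
    · exact Or.inl h
    · right
      have h1 : ∃ (e : List ℕ) (M : ℤ), e.length = 2 * n ∧ late n e ∧ e.sum ≤ L ∧ isPath d e N M := by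
        by_contra h2
        exact h ⟨hN.1, hN.2.1, hN.2.2.1, h2⟩
      obtain ⟨e, M, he1, he2, he3, he4⟩ := h1
      obtain ⟨i, hi, hb⟩ := exists_bar he1 he2
      obtain ⟨M', hM'⟩ := isPath_drop he4 i (by omega)
      have hsl : (e.drop i).sum ≤ e.sum := by
        conv_rhs => rw [← List.take_append_drop i e, List.sum_append]
        exact Nat.le_add_left _ _
      simp only [Set.mem_iUnion]
      exact ⟨(e.drop i).length, Finset.mem_Icc.2 ⟨by rw [List.length_drop]; omega,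
        by rw [List.length_drop]; omega⟩, (e.drop i).sum, Finset.mem_range.2 (by omega), e.drop i,
        Finset.mem_filter.2 ⟨mem_comps.2 ⟨rfl, rfl, isPath_pos hM'⟩, hb⟩,
        hN.1, hN.2.2.1, hN.2.2.2, M', hM'⟩
  have h1 : S.ncard ≤ E.ncard +
      ∑ n' ∈ Icc n (2 * n), ∑ l ∈ range (L + 1), ∑ e ∈ (comps n' l).filter bar, (W e).ncard := by
    calc S.ncard ≤ (E ∪ ⋃ n' ∈ Icc n (2 * n), ⋃ l ∈ range (L + 1),
            ⋃ e ∈ (comps n' l).filter bar, W e).ncard :=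
          Set.ncard_le_ncard hsub (hEf.union hUf)
      _ ≤ E.ncard + (⋃ n' ∈ Icc n (2 * n), ⋃ l ∈ range (L + 1),
            ⋃ e ∈ (comps n' l).filter bar, W e).ncard := Set.ncard_union_le _ _
      _ ≤ _ := by
          apply Nat.add_le_add_left
          refine (Finset.set_ncard_biUnion_le _ _).trans ?_
          apply Finset.sum_le_sum
          intro n' _
          refine (Finset.set_ncard_biUnion_le _ _).trans ?_
          apply Finset.sum_le_sum
          intro l _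
          exact Finset.set_ncard_biUnion_le _ _
  have h2 : (cnt d B t K r z : ℝ) ≤ (E.ncard : ℝ) +
      ∑ n' ∈ Icc n (2 * n), ∑ l ∈ range (L + 1), ∑ e ∈ (comps n' l).filter bar, ((W e).ncard : ℝ) := by
    have : cnt d B t K r z = S.ncard := rfl
    rw [this]
    exact_mod_cast h1
  have h3' := exc_countP hd (late n) (2 * n) L K r z hz0
  have h4 : ∑ n' ∈ Icc n (2 * n), ∑ l ∈ range (L + 1), ∑ e ∈ (comps n' l).filter bar, ((W e).ncard : ℝ) ≤
      ∑ n' ∈ Icc n (2 * n), ∑ l ∈ range (L + 1), ∑ e ∈ (comps n' l).filter bar,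
        ((Set.ncard {M : ℤ | M ∈ itv (3 ^ n' * z / 2 ^ l) (2 * (3 ^ n' * z / 2 ^ l)) ∧ Odd M ∧
          hz d r (n' + K) e = (M : ZMod (3 ^ (n' + K))) ∧ bad d B (t - l) M} : ℝ) +
          (|(d : ℝ)| + 1)) := by
    apply Finset.sum_le_sum
    intro n' _
    apply Finset.sum_le_sum
    intro l hl
    apply Finset.sum_le_sum
    intro e he
    have hl' : l ≤ t := by
      have := Finset.mem_range.1 hl
      omega
    exact count_word hd B n' K l t r z hz0 hl' (Finset.mem_filter.1 he).1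
  have h5 : ∑ n' ∈ Icc n (2 * n), ∑ l ∈ range (L + 1), ∑ e ∈ (comps n' l).filter bar,
        ((Set.ncard {M : ℤ | M ∈ itv (3 ^ n' * z / 2 ^ l) (2 * (3 ^ n' * z / 2 ^ l)) ∧ Odd M ∧
          hz d r (n' + K) e = (M : ZMod (3 ^ (n' + K))) ∧ bad d B (t - l) M} : ℝ) +
          (|(d : ℝ)| + 1)) =
      ∑ n' ∈ Icc n (2 * n), ∑ l ∈ range (L + 1), ∑ e ∈ (comps n' l).filter bar,
        (Set.ncard {M : ℤ | M ∈ itv (3 ^ n' * z / 2 ^ l) (2 * (3 ^ n' * z / 2 ^ l)) ∧ Odd M ∧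
          hz d r (n' + K) e = (M : ZMod (3 ^ (n' + K))) ∧ bad d B (t - l) M} : ℝ) +
      (∑ n' ∈ Icc n (2 * n), ∑ l ∈ range (L + 1), (((comps n' l).filter bar).card : ℝ)) *
        (|(d : ℝ)| + 1) := by
    rw [Finset.sum_mul, ← Finset.sum_add_distrib]
    apply Finset.sum_congr rfl
    intro n' _
    rw [Finset.sum_mul, ← Finset.sum_add_distrib]
    apply Finset.sum_congr rfl
    intro l _
    rw [Finset.sum_add_distrib, Finset.sum_const, nsmul_eq_mul]
  have h6 : ∑ n' ∈ Icc n (2 * n), ∑ l ∈ range (L + 1), (((comps n' l).filter bar).card : ℝ) ≤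
      ((n : ℝ) + 1) * 2 ^ L := by
    have h7 : ∀ n' ∈ Icc n (2 * n), ∑ l ∈ range (L + 1), (((comps n' l).filter bar).card : ℝ) ≤
        2 ^ L := by
      intro n' _
      have h8 : ∑ l ∈ range (L + 1), ((comps n' l).filter bar).card ≤ 2 ^ L := by
        refine le_trans ?_ (sum_card_comps_le n' L)
        apply Finset.sum_le_sum
        intro l _
        exact Finset.card_filter_le _ _
      exact_mod_cast h8
    refine (Finset.sum_le_sum h7).trans ?_
    rw [Finset.sum_const, nsmul_eq_mul, Nat.card_Icc]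
    have : 2 * n + 1 - n = n + 1 := by omega
    rw [this]
    push_cast
    exact le_refl _
  have h8 : (∑ n' ∈ Icc n (2 * n), ∑ l ∈ range (L + 1), (((comps n' l).filter bar).card : ℝ)) *
      (|(d : ℝ)| + 1) ≤ ((n : ℝ) + 1) * 2 ^ L * (|(d : ℝ)| + 1) :=
    mul_le_mul_of_nonneg_right h6 (by positivity)
  have h10 : ∑ l ∈ range (L + 1), (1 / 2 : ℝ) ^ l * (((comps (2 * n) l).filter (late n)).card : ℝ) =
      ∑ l ∈ range (L + 1), nb (2 * n) l -
      ∑ l ∈ range (L + 1), (1 / 2 : ℝ) ^ l *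
        (((comps (2 * n) l).filter fun e => ¬ late n e).card : ℝ) := by
    rw [← Finset.sum_sub_distrib]
    apply Finset.sum_congr rfl
    intro l _
    have h11 := Finset.card_filter_add_card_filter_not (s := comps (2 * n) l) (late n)
    have h12 : (((comps (2 * n) l).filter (late n)).card : ℝ) +
        (((comps (2 * n) l).filter fun e => ¬ late n e).card : ℝ) = ((comps (2 * n) l).card : ℝ) := by
      exact_mod_cast h11
    unfold nb
    rw [← h12]
    ring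
  have h13 := prob_late n L
  have h14 : (2 : ℝ) ^ (L + 1) ≤ 2 * (((n : ℝ) + 1) * 2 ^ L) := by
    rw [pow_succ]
    have : (0 : ℝ) < 2 ^ L := by positivity
    have hn : (0 : ℝ) ≤ n := Nat.cast_nonneg n
    nlinarith
  have h15 : z / (2 * 3 ^ K) * (1 - ∑ l ∈ range (L + 1), (1 / 2 : ℝ) ^ l *
      (((comps (2 * n) l).filter (late n)).card : ℝ)) ≤
      z / (2 * 3 ^ K) * ((1 - ∑ l ∈ range (L + 1), nb (2 * n) l) +
        ((n : ℝ) + 1) * (0.998 : ℝ) ^ n) := by
    apply mul_le_mul_of_nonneg_left _ (by positivity)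
    have h16 : ∑ l ∈ range (L + 1), (1 / 2 : ℝ) ^ l *
        (((comps (2 * n) l).filter fun e => ¬ late n e).card : ℝ) ≤
        ((n : ℝ) + 1) * (0.998 : ℝ) ^ n := by
      convert h13
    rw [h10]
    linarith
  have h17 : (E.ncard : ℝ) ≤ z / (2 * 3 ^ K) * (1 - ∑ l ∈ range (L + 1), (1 / 2 : ℝ) ^ l *
      (((comps (2 * n) l).filter (late n)).card : ℝ)) + 2 ^ (L + 1) := by
    convert h3'
  rw [h5] at h4
  have h18 : (|(d : ℝ)| + 3) * ((n : ℝ) + 1) * 2 ^ L =
      ((n : ℝ) + 1) * 2 ^ L * (|(d : ℝ)| + 1) + 2 * (((n : ℝ) + 1) * 2 ^ L) := by ring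
  rw [h18]
  linarith

end Pool.Agent.Lib.MP_d0d59f_nt.PS
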