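import Pool.Agent.Lib.MP_d0d59f_nt.PS.R04
import Pool.Agent.Lib.MP_d0d59f_nt.PS.R08

namespace Pool.Agent.Lib.MP_d0d59f_nt.PS

open Finset AA

/-- `6 (K) ≤ n'` and `19 n' ≤ 10 l` give `3^(n'+K) ≤ 2^l`: `3^(70) ≤ 2^(114)`, so `(3^(n'+K))^60 ≤ (3^70)^n' ≤ (2^114)^n' ≤ (2^l)^60`. -/
theorem three_le_two {n' K l : ℕ} (hK : 6 * K ≤ n') (hl : 19 * n' ≤ 10 * l) :
    (3 : ℝ) ^ (n' + K) ≤ 2 ^ l := by
  have h1 : ((3 : ℝ) ^ (n' + K)) ^ 60 ≤ ((2 : ℝ) ^ l) ^ 60 := by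
    calc ((3 : ℝ) ^ (n' + K)) ^ 60 = 3 ^ ((n' + K) * 60) := by rw [← pow_mul]
      _ ≤ 3 ^ (70 * n') := pow_le_pow_right₀ (by norm_num) (by omega)
      _ = (3 ^ 70) ^ n' := by rw [pow_mul]
      _ ≤ (2 ^ 114) ^ n' := pow_le_pow_left₀ (by positivity) (by norm_num) n'
      _ = 2 ^ (114 * n') := by rw [pow_mul]
      _ ≤ 2 ^ (l * 60) := pow_le_pow_right₀ (by norm_num) (by omega)
      _ = ((2 : ℝ) ^ l) ^ 60 := by rw [← pow_mul]
  exact (pow_le_pow_iff_left₀ (by positivity) (by positivity) (by norm_num)).1 h1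

/-- `flat_count`, and for each `(n', l)`: if `10 l < 19 n'` the filter is empty (`bar` with `j = n'`), otherwise `flat_word`, `three_le_two` (so `1 ≤ 2^l/3^(n'+K)`) and the hypothesis give
at most `3 (2^l/3^(n'+K)) β (3^n' z/2^l)/2 = 3 β z/(2·3^K)`; there are `(n+1)(L+1)` pairs. -/
theorem flat_bound {d : ℤ} (hd : Odd d) (h3 : ¬ (3 : ℤ) ∣ d) (B : ℝ) (n K L t : ℕ) (r : ℤ)
    (z : ℝ) (hz0 : 0 < z) (ht : L ≤ t) (hK : 6 * K ≤ n) (β : ℝ) (hβ0 : 0 ≤ β)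
    (hβ : ∀ n' ∈ Icc n (2 * n), ∀ l ≤ L, 19 * n' ≤ 10 * l →
      (cnt d B (t - l) 0 0 (3 ^ n' * z / 2 ^ l) : ℝ) ≤ β * ((3 ^ n' * z / 2 ^ l) / 2)) :
    (cnt d B t K r z : ℝ) ≤
      z / (2 * 3 ^ K) * (3 * β * (((n : ℝ) + 1) * ((L : ℝ) + 1))
        + (1 - ∑ l ∈ range (L + 1), nb (2 * n) l) + ((n : ℝ) + 1) * (0.998 : ℝ) ^ n)
      + (|(d : ℝ)| + 3) * ((n : ℝ) + 1) * 2 ^ L := by
  have hc := flat_count hd B n K L t r z hz0 ht
  have key : ∀ n' ∈ Icc n (2 * n), ∀ l ∈ range (L + 1), ∑ e ∈ (comps n' l).filter bar,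
        (Set.ncard {M : ℤ | M ∈ itv (3 ^ n' * z / 2 ^ l) (2 * (3 ^ n' * z / 2 ^ l)) ∧ Odd M ∧
          hz d r (n' + K) e = (M : ZMod (3 ^ (n' + K))) ∧ bad d B (t - l) M} : ℝ) ≤
      z / (2 * 3 ^ K) * (3 * β) := by
    intro n' hn' l hl
    rw [mem_range] at hl
    have hn1 := (mem_Icc.1 hn').1
    have hpos : 0 ≤ z / (2 * 3 ^ K) * (3 * β) := by positivity
    by_cases h19 : 19 * n' ≤ 10 * l
    · have hw := flat_word h3 B n' K l t r (3 ^ n' * z / 2 ^ l)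
      refine hw.trans ?_
      have h32 : (3 : ℝ) ^ (n' + K) ≤ 2 ^ l := three_le_two (by omega) h19
      have h3p : (0 : ℝ) < 3 ^ (n' + K) := by positivity
      have h1 : (1 : ℝ) ≤ 2 ^ l / 3 ^ (n' + K) := by
        rw [le_div_iff₀ h3p]
        linarith
      have h2 : 2 * 2 ^ l / 3 ^ (n' + K) + 1 ≤ 3 * ((2 : ℝ) ^ l / 3 ^ (n' + K)) := by
        have e1 : (2 : ℝ) * 2 ^ l / 3 ^ (n' + K) = 2 * (2 ^ l / 3 ^ (n' + K)) := by ring
        rw [e1]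
        linarith
      calc (2 * 2 ^ l / 3 ^ (n' + K) + 1) * (cnt d B (t - l) 0 0 (3 ^ n' * z / 2 ^ l) : ℝ)
          ≤ (3 * ((2 : ℝ) ^ l / 3 ^ (n' + K))) * (β * ((3 ^ n' * z / 2 ^ l) / 2)) := by
            apply mul_le_mul h2 (hβ n' hn' l (by omega) h19) (Nat.cast_nonneg _) (by positivity)
        _ = z / (2 * 3 ^ K) * (3 * β) := by
            rw [pow_add]
            field_simp
    · have hempty : (comps n' l).filter bar = ∅ := by
        rw [Finset.filter_eq_empty_iff]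
        intro e he hb
        obtain ⟨h1, _, h2⟩ := mem_comps.1 he
        have h4 := hb n' (by omega)
        rw [List.take_of_length_le (by omega)] at h4
        omega
      rw [hempty, Finset.sum_empty]
      exact hpos
  have hsum : ∑ n' ∈ Icc n (2 * n), ∑ l ∈ range (L + 1), ∑ e ∈ (comps n' l).filter bar,
        (Set.ncard {M : ℤ | M ∈ itv (3 ^ n' * z / 2 ^ l) (2 * (3 ^ n' * z / 2 ^ l)) ∧ Odd M ∧
          hz d r (n' + K) e = (M : ZMod (3 ^ (n' + K))) ∧ bad d B (t - l) M} : ℝ) ≤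
      ((n : ℝ) + 1) * (((L : ℝ) + 1) * (z / (2 * 3 ^ K) * (3 * β))) := by
    calc _ ≤ ∑ _n' ∈ Icc n (2 * n), ∑ _l ∈ range (L + 1), (z / (2 * 3 ^ K) * (3 * β)) :=
          Finset.sum_le_sum fun n' hn' => Finset.sum_le_sum fun l hl => key n' hn' l hl
      _ = _ := by
          rw [Finset.sum_const, Finset.sum_const, Nat.card_Icc, Finset.card_range,
            nsmul_eq_mul, nsmul_eq_mul]
          have e1 : ((2 * n + 1 - n : ℕ) : ℝ) = (n : ℝ) + 1 := by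
            have : 2 * n + 1 - n = n + 1 := by omega
            rw [this]
            push_cast
            ring
          rw [e1]
          push_cast
          ring
  refine hc.trans ?_
  have e2 : z / (2 * 3 ^ K) * (3 * β * (((n : ℝ) + 1) * ((L : ℝ) + 1))
        + (1 - ∑ l ∈ range (L + 1), nb (2 * n) l) + ((n : ℝ) + 1) * (0.998 : ℝ) ^ n) =
      ((n : ℝ) + 1) * (((L : ℝ) + 1) * (z / (2 * 3 ^ K) * (3 * β))) +
        z / (2 * 3 ^ K) * ((1 - ∑ l ∈ range (L + 1), nb (2 * n) l) + ((n : ℝ) + 1) * (0.998 : ℝ) ^ n) := by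
    ring
  rw [e2]
  linarith

end Pool.Agent.Lib.MP_d0d59f_nt.PS
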