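import Pool.Agent.Lib.MP_d0d59f_nt.PS.Defs
import Pool.Agent.Lib.MP_d0d59f_nt.AA.B4aWord

namespace Pool.Agent.Lib.MP_d0d59f_nt.PS

open Finset AA

open Classical in
/-- Grouping a sum over a finite set of integers by the residue modulo `q`. -/
private theorem r10_group (S : Finset ℤ) (q : ℕ) (hq : 0 < q) (f : ℤ → ℝ) (g : ℕ → ℝ)
    (hfg : ∀ (M : ℤ) (x : ℕ), M ≡ x [ZMOD q] → f M = g x) :
    ∑ M ∈ S, f M = ∑ x ∈ range q, g x * ((S.filter fun M => M ≡ x [ZMOD q]).card : ℝ) := by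
  have hq' : (0 : ℤ) < q := by exact_mod_cast hq
  have hmap : ∀ M ∈ S, (M % (q : ℤ)).toNat ∈ range q := by
    intro M _
    rw [mem_range]
    have h1 := Int.emod_nonneg M hq'.ne'
    have h2 := Int.emod_lt_of_pos M hq'
    omega
  rw [← Finset.sum_fiberwise_of_maps_to hmap]
  refine Finset.sum_congr rfl fun x hx => ?_
  rw [mem_range] at hx
  have hfil : (S.filter fun M => (M % (q : ℤ)).toNat = x) = S.filter fun M => M ≡ x [ZMOD q] := by
    refine Finset.filter_congr fun M _ => ?_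
    have h1 := Int.emod_nonneg M hq'.ne'
    have h2 := Int.emod_lt_of_pos M hq'
    have hx2 : ((x : ℤ) % q) = x := Int.emod_eq_of_lt (by positivity) (by exact_mod_cast hx)
    unfold Int.ModEq
    rw [hx2]
    omega
  rw [hfil]
  rw [Finset.sum_congr rfl (g := fun _ => g x)]
  · rw [Finset.sum_const, nsmul_eq_mul, mul_comm]
  · intro M hM
    rw [Finset.mem_filter] at hM
    exact hfg M x hM.2

private theorem r10_modEq_cast {K : ℕ} {M : ℤ} {x : ℕ} (h : M ≡ x [ZMOD ((3 ^ K : ℕ) : ℤ)]) :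
    (M : ZMod (3 ^ K)) = (x : ZMod (3 ^ K)) := by
  have := (ZMod.intCast_eq_intCast_iff M (x : ℤ) (3 ^ K)).2 h
  simpa using this

/-- `AA.dens_word` with the flatness hypothesis `hF`: same proof (first part unchanged), in the second part the number of `M ∈ S` with `M ≡ x mod 3^(n+m)` is
`cnt d B (t-l) (n+m) x z ≤ Φ z/(2·3^(n+m))` instead of `≤ z/(2·3^(n+m)) + 1`. (`AA.dens_word` has the private lemmas `b4_group`, `b4_modEq_cast`: copy them.) -/
theorem dens_wordF {d : ℤ} (B : ℝ) (n m m' l t : ℕ) (hm' : m' ≤ n + m) (r : ℤ)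
    (y : ℝ) (hy : 0 < y) (β Φ : ℝ) (hβ0 : 0 ≤ β)
    (hβ : ∀ r' : ℤ, (cnt d B (t - l) m' r' (3 ^ n * y / 2 ^ l) : ℝ) ≤
      β * ((3 ^ n * y / 2 ^ l) / (2 * 3 ^ m')))
    (hF : ∀ r' : ℤ, (cnt d B (t - l) (n + m) r' (3 ^ n * y / 2 ^ l) : ℝ) ≤
      Φ * ((3 ^ n * y / 2 ^ l) / (2 * 3 ^ (n + m)))) :
    ∑ e ∈ comps n l,
        (Set.ncard {M : ℤ | M ∈ itv (3 ^ n * y / 2 ^ l) (2 * (3 ^ n * y / 2 ^ l)) ∧ Odd M ∧
          hz d r (n + m) e = (M : ZMod (3 ^ (n + m))) ∧ bad d B (t - l) M} : ℝ) ≤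
      y / (2 * 3 ^ m) * (β * nb n l) +
      y / (2 * 3 ^ m) * (Φ * ∑ x ∈ range (3 ^ (n + m)),
        |pz d r (n + m) n l (x : ZMod (3 ^ (n + m)))
          - (3 : ℝ) ^ m' / 3 ^ (n + m) * pz d r m' n l (x : ZMod (3 ^ m'))|) := by
  classical
  set z : ℝ := 3 ^ n * y / 2 ^ l with hz_def
  have hzpos : 0 < z := by positivity
  set K : ℕ := n + m with hK
  set c : ℝ := (3 : ℝ) ^ m' / 3 ^ K with hc
  have hcpos : 0 < c := by positivity
  set S : Finset ℤ := (itv z (2 * z)).filter fun M => Odd M ∧ bad d B (t - l) M with hS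
  -- the counts as finset cardinalities
  have h1 : ∀ e ∈ comps n l,
      (Set.ncard {M : ℤ | M ∈ itv z (2 * z) ∧ Odd M ∧
          hz d r K e = (M : ZMod (3 ^ K)) ∧ bad d B (t - l) M} : ℝ)
        = ∑ M ∈ S, (if hz d r K e = (M : ZMod (3 ^ K)) then (1 : ℝ) else 0) := by
    intro e _
    have hset : {M : ℤ | M ∈ itv z (2 * z) ∧ Odd M ∧
          hz d r K e = (M : ZMod (3 ^ K)) ∧ bad d B (t - l) M}
        = ((S.filter fun M : ℤ => hz d r K e = (M : ZMod (3 ^ K)) : Finset ℤ) : Set ℤ) := by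
      ext M
      simp only [Set.mem_ofPred_eq, Finset.coe_filter, hS, Finset.mem_filter]
      tauto
    rw [hset, Set.ncard_coe_finset, Finset.card_filter]
    push_cast
    rfl
  rw [Finset.sum_congr rfl h1, Finset.sum_comm]
  -- exchange: the inner sum is `2^l pz`
  have h2 : ∀ M ∈ S, ∑ e ∈ comps n l, (if hz d r K e = (M : ZMod (3 ^ K)) then (1 : ℝ) else 0)
      = 2 ^ l * pz d r K n l (M : ZMod (3 ^ K)) := by
    intro M _
    unfold pz
    rw [← mul_assoc, ← mul_pow, Finset.card_filter]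
    norm_num
  rw [Finset.sum_congr rfl h2]
  -- split
  have h3 : ∀ M ∈ S, 2 ^ l * pz d r K n l (M : ZMod (3 ^ K)) ≤
      2 ^ l * c * pz d r m' n l (M : ZMod (3 ^ m')) +
      2 ^ l * |pz d r K n l (M : ZMod (3 ^ K)) - c * pz d r m' n l (M : ZMod (3 ^ m'))| := by
    intro M _
    have := le_abs_self (pz d r K n l (M : ZMod (3 ^ K)) - c * pz d r m' n l (M : ZMod (3 ^ m')))
    have h2l : (0 : ℝ) < 2 ^ l := by positivity
    nlinarith
  refine (Finset.sum_le_sum h3).trans ?_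
  rw [Finset.sum_add_distrib, ← Finset.mul_sum, ← Finset.mul_sum]
  -- first part
  have hA : ∑ M ∈ S, pz d r m' n l (M : ZMod (3 ^ m')) ≤ β * (z / (2 * 3 ^ m')) * nb n l := by
    rw [r10_group S (3 ^ m') (by positivity) (fun M => pz d r m' n l (M : ZMod (3 ^ m')))
      (fun x => pz d r m' n l (x : ZMod (3 ^ m')))
      (fun M x h => by simp only [r10_modEq_cast h])]
    have hb : ∀ x ∈ range (3 ^ m'), pz d r m' n l (x : ZMod (3 ^ m')) *
        ((S.filter fun M => M ≡ (x : ℕ) [ZMOD ((3 ^ m' : ℕ) : ℤ)]).card : ℝ)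
        ≤ pz d r m' n l (x : ZMod (3 ^ m')) * (β * (z / (2 * 3 ^ m'))) := by
      intro x _
      refine mul_le_mul_of_nonneg_left ?_ (pz_nonneg _ _ _ _ _ _)
      refine le_trans (le_of_eq ?_) (hβ (x : ℤ))
      unfold cnt
      have hset : {N : ℤ | N ∈ itv z (2 * z) ∧ Odd N ∧ N ≡ (x : ℤ) [ZMOD 3 ^ m'] ∧
            bad d B (t - l) N}
          = ((S.filter fun M : ℤ => M ≡ (x : ℕ) [ZMOD ((3 ^ m' : ℕ) : ℤ)] : Finset ℤ) : Set ℤ) := by
        ext M
        simp only [Set.mem_ofPred_eq, Finset.coe_filter, hS, Finset.mem_filter, Nat.cast_pow,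
          Nat.cast_ofNat]
        tauto
      rw [hset, Set.ncard_coe_finset]
    refine (Finset.sum_le_sum hb).trans (le_of_eq ?_)
    rw [← Finset.sum_mul, sum_range_eq_sum_zmod m' (pz d r m' n l), sum_pz]
    ring
  -- second part
  have hB : ∑ M ∈ S, |pz d r K n l (M : ZMod (3 ^ K)) - c * pz d r m' n l (M : ZMod (3 ^ m'))| ≤
      (Φ * (z / (2 * 3 ^ K))) * ∑ x ∈ range (3 ^ K), |pz d r K n l (x : ZMod (3 ^ K))
          - c * pz d r m' n l (x : ZMod (3 ^ m'))| := by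
    rw [r10_group S (3 ^ K) (by positivity)
      (fun M => |pz d r K n l (M : ZMod (3 ^ K)) - c * pz d r m' n l (M : ZMod (3 ^ m'))|)
      (fun x => |pz d r K n l (x : ZMod (3 ^ K)) - c * pz d r m' n l (x : ZMod (3 ^ m'))|)
      (fun M x h => by
        have h' : M ≡ x [ZMOD ((3 ^ m' : ℕ) : ℤ)] := by
          refine h.of_dvd ?_
          exact_mod_cast pow_dvd_pow 3 hm'
        simp only [r10_modEq_cast h, r10_modEq_cast h'])]
    rw [Finset.mul_sum]
    refine Finset.sum_le_sum fun x _ => ?_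
    rw [mul_comm]
    refine mul_le_mul_of_nonneg_right ?_ (abs_nonneg _)
    refine le_trans (le_of_eq ?_) (hF (x : ℤ))
    unfold cnt
    have hset : {N : ℤ | N ∈ itv z (2 * z) ∧ Odd N ∧ N ≡ (x : ℤ) [ZMOD 3 ^ K] ∧
          bad d B (t - l) N}
        = ((S.filter fun M : ℤ => M ≡ (x : ℕ) [ZMOD ((3 ^ K : ℕ) : ℤ)] : Finset ℤ) : Set ℤ) := by
      ext M
      simp only [Set.mem_ofPred_eq, Finset.coe_filter, hS, Finset.mem_filter, Nat.cast_pow,
        Nat.cast_ofNat]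
      tauto
    rw [hset, Set.ncard_coe_finset]
  have e1 : 2 ^ l * c * (β * (z / (2 * 3 ^ m')) * nb n l) = y / (2 * 3 ^ m) * (β * nb n l) := by
    rw [hc, hz_def, hK, pow_add]
    field_simp
  have e2 : 2 ^ l * (z / (2 * 3 ^ K)) = y / (2 * 3 ^ m) := by
    rw [hz_def, hK, pow_add]
    field_simp
  have h2l : (0 : ℝ) < 2 ^ l := by positivity
  set O : ℝ := ∑ x ∈ range (3 ^ K), |pz d r K n l (x : ZMod (3 ^ K))
          - c * pz d r m' n l (x : ZMod (3 ^ m'))| with hO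
  calc 2 ^ l * c * ∑ M ∈ S, pz d r m' n l (M : ZMod (3 ^ m')) +
        2 ^ l * ∑ M ∈ S, |pz d r K n l (M : ZMod (3 ^ K)) - c * pz d r m' n l (M : ZMod (3 ^ m'))|
      ≤ 2 ^ l * c * (β * (z / (2 * 3 ^ m')) * nb n l) + 2 ^ l * ((Φ * (z / (2 * 3 ^ K))) * O) := by
        gcongr
    _ = y / (2 * 3 ^ m) * (β * nb n l) + y / (2 * 3 ^ m) * (Φ * O) := by
        rw [e1, ← e2]; ring

end Pool.Agent.Lib.MP_d0d59f_nt.PS
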