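import Pool.Agent.Lib.MP_d0d59f_nt.PS.R10
import Pool.Agent.Lib.MP_d0d59f_nt.AA.B4bCount

namespace Pool.Agent.Lib.MP_d0d59f_nt.PS

open Finset AA

/-- As `AA.dens_count`, from `count_main` and `dens_wordF` (sum over `l ∈ [l1, L]`; the sum of the inner sums is `≤ osc d r (n+m) m' n L`, `Φ ≥ 0`). -/
theorem dens_countF {d : ℤ} (hd : Odd d) (h3 : ¬ (3 : ℤ) ∣ d) (B : ℝ) (n m m' l1 L t : ℕ)
    (hm' : m' ≤ n + m) (r : ℤ) (y : ℝ) (hy : 0 < y) (ht : L ≤ t) (β Φ : ℝ) (hβ0 : 0 ≤ β) (hΦ0 : 0 ≤ Φ)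
    (hβ : ∀ l ∈ Icc l1 L, ∀ r' : ℤ, (cnt d B (t - l) m' r' (3 ^ n * y / 2 ^ l) : ℝ) ≤
      β * ((3 ^ n * y / 2 ^ l) / (2 * 3 ^ m')))
    (hF : ∀ l ∈ Icc l1 L, ∀ r' : ℤ, (cnt d B (t - l) (n + m) r' (3 ^ n * y / 2 ^ l) : ℝ) ≤
      Φ * ((3 ^ n * y / 2 ^ l) / (2 * 3 ^ (n + m)))) :
    (cnt d B t m r y : ℝ) ≤
      y / (2 * 3 ^ m) * (β + Φ * osc d r (n + m) m' n L + (1 - ∑ l ∈ Icc l1 L, nb n l))
        + (|(d : ℝ)| + 3) * 2 ^ L := by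
  have hmain := count_main hd h3 B n m l1 L t r y hy ht
  have hsub : Icc l1 L ⊆ range (L + 1) := by
    intro l hl
    rw [mem_Icc] at hl
    rw [mem_range]
    omega
  have hY : (0 : ℝ) ≤ y / (2 * 3 ^ m) := by positivity
  set O : ℕ → ℝ := fun l => ∑ x ∈ range (3 ^ (n + m)),
        |pz d r (n + m) n l (x : ZMod (3 ^ (n + m)))
          - (3 : ℝ) ^ m' / 3 ^ (n + m) * pz d r m' n l (x : ZMod (3 ^ m'))| with hO
  have hO0 : ∀ l, 0 ≤ O l := fun l => Finset.sum_nonneg fun _ _ => abs_nonneg _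
  have hsum : ∑ l ∈ Icc l1 L, ∑ e ∈ comps n l,
        (Set.ncard {M : ℤ | M ∈ itv (3 ^ n * y / 2 ^ l) (2 * (3 ^ n * y / 2 ^ l)) ∧ Odd M ∧
          hz d r (n + m) e = (M : ZMod (3 ^ (n + m))) ∧ bad d B (t - l) M} : ℝ) ≤
      ∑ l ∈ Icc l1 L, (y / (2 * 3 ^ m) * β * nb n l + y / (2 * 3 ^ m) * Φ * O l) := by
    refine Finset.sum_le_sum fun l hl => ?_
    refine (dens_wordF B n m m' l t hm' r y hy β Φ hβ0 (hβ l hl) (hF l hl)).trans ?_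
    simp only [hO]
    apply le_of_eq
    ring
  rw [Finset.sum_add_distrib, ← Finset.mul_sum, ← Finset.mul_sum] at hsum
  have hnb : ∑ l ∈ Icc l1 L, nb n l ≤ 1 :=
    (Finset.sum_le_sum_of_subset_of_nonneg hsub fun l _ _ => nb_nonneg n l).trans
      (sum_nb_le_one n L)
  have hosc : ∑ l ∈ Icc l1 L, O l ≤ osc d r (n + m) m' n L := by
    refine (Finset.sum_le_sum_of_subset_of_nonneg hsub fun l _ _ => hO0 l).trans (le_of_eq ?_)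
    rfl
  have h1 : y / (2 * 3 ^ m) * β * ∑ l ∈ Icc l1 L, nb n l ≤ y / (2 * 3 ^ m) * β * 1 :=
    mul_le_mul_of_nonneg_left hnb (mul_nonneg hY hβ0)
  have h2 : y / (2 * 3 ^ m) * Φ * ∑ l ∈ Icc l1 L, O l ≤
      y / (2 * 3 ^ m) * Φ * osc d r (n + m) m' n L :=
    mul_le_mul_of_nonneg_left hosc (mul_nonneg hY hΦ0)
  have e : y / (2 * 3 ^ m) * (β + Φ * osc d r (n + m) m' n L + (1 - ∑ l ∈ Icc l1 L, nb n l))
        + (|(d : ℝ)| + 3) * 2 ^ L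
      = y / (2 * 3 ^ m) * β + y / (2 * 3 ^ m) * Φ * osc d r (n + m) m' n L
        + y / (2 * 3 ^ m) * (1 - ∑ l ∈ Icc l1 L, nb n l) + (|(d : ℝ)| + 3) * 2 ^ L := by ring
  rw [e]
  linarith

end Pool.Agent.Lib.MP_d0d59f_nt.PS
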