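import Pool.Agent.Lib.MP_d0d59f_nt.PS.R09
import Pool.Agent.Lib.MP_d0d59f_nt.AA.B5Scale
import Pool.Agent.Lib.MP_d0d59f_nt.AA.U2Step

namespace Pool.Agent.Lib.MP_d0d59f_nt.PS

open Finset AA

/-- Compare `b5_kk` (`kk` has `250` instead of `5000`). -/
theorem kp_bounds {y : ℝ} (h : 1050000 ≤ Real.logb 2 y) :
    5000 * (kp y : ℝ) ≤ Real.logb 2 y ∧ Real.logb 2 y ≤ 5025 * (kp y : ℝ) ∧ 200 ≤ kp y := by
  have h0 : 0 ≤ Real.logb 2 y / 5000 := by linarith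
  have h1 : (kp y : ℝ) ≤ Real.logb 2 y / 5000 := Nat.floor_le h0
  have h2 : Real.logb 2 y / 5000 < (kp y : ℝ) + 1 := Nat.lt_floor_add_one _
  have h3 : 200 ≤ kp y := Nat.le_floor (by push_cast; linarith)
  have h4 : (200 : ℝ) ≤ kp y := by exact_mod_cast h3
  exact ⟨by linarith, by linarith, h3⟩

/-- The trivial error term of `flat_bound` at the scales of the step. With `Z = 3^(10k) (D y)/2^l ≥ D 2^(4979 k)` (as `y ≥ 2^(5000k)`, `l ≤ 21 k`),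
`Z/(2·3^(10k+m)) ≥ D 2^(4979k)/(2·3^(11k)) ≥ D 2^(4957k)/2`, `3^11 ≤ 2^22`; `(D+3) (70k+1) 2^(294k) ≤ 4 D · 71 k · 2^(294 k)`; `k ≤ 2^k`; the quotient is
`≤ 8·71·2^(295k - 4957k) ≤ 0.98^k`. -/
theorem flat_triv {D y : ℝ} (hD : 1 ≤ D) (hy : 0 < y) {k m l : ℕ} (hk1 : 1 ≤ k)
    (hk : 5000 * (k : ℝ) ≤ Real.logb 2 y) (hm : m ≤ k) (hl : l ≤ 21 * k) :
    (D + 3) * (((70 * k : ℕ) : ℝ) + 1) * 2 ^ (294 * k) ≤
      (3 ^ (10 * k) * (D * y) / 2 ^ l) / (2 * 3 ^ (10 * k + m)) * (0.98 : ℝ) ^ k := by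
  have h1 : (2 : ℝ) ^ (5000 * k) ≤ y := by
    have h2 : (2 : ℝ) ^ ((5000 * k : ℕ) : ℝ) ≤ (2 : ℝ) ^ (Real.logb 2 y) :=
      Real.rpow_le_rpow_of_exponent_le (by norm_num) (by push_cast; linarith)
    rw [Real.rpow_natCast, Real.rpow_logb (by norm_num) (by norm_num) hy] at h2
    exact h2
  have h3 : (3 : ℝ) ^ m ≤ 2 ^ (2 * k) := by
    calc (3 : ℝ) ^ m ≤ 3 ^ k := pow_le_pow_right₀ (by norm_num) hm
      _ ≤ 4 ^ k := pow_le_pow_left₀ (by norm_num) (by norm_num) k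
      _ = 2 ^ (2 * k) := by rw [pow_mul]; norm_num
  have h4 : (1 / 2 : ℝ) ^ k ≤ (0.98 : ℝ) ^ k := pow_le_pow_left₀ (by norm_num) (by norm_num) k
  have h5 : (2 : ℝ) ^ l ≤ 2 ^ (21 * k) := pow_le_pow_right₀ (by norm_num) hl
  have hk1' : (1 : ℝ) ≤ k := by exact_mod_cast hk1
  have hk2 : (k : ℝ) ≤ 2 ^ k := by exact_mod_cast (Nat.lt_two_pow_self (n := k)).le
  have h6 : (568 : ℝ) ≤ 2 ^ (10 * k) := by
    calc (568 : ℝ) ≤ 2 ^ (10 * 1) := by norm_num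
      _ ≤ 2 ^ (10 * k) := pow_le_pow_right₀ (by norm_num) (by omega)
  have e : (3 ^ (10 * k) * (D * y) / 2 ^ l) / (2 * 3 ^ (10 * k + m)) * (0.98 : ℝ) ^ k =
      D * y * (0.98 : ℝ) ^ k / (2 * (2 ^ l * 3 ^ m)) := by
    rw [pow_add (3 : ℝ)]
    field_simp
  rw [e, le_div_iff₀ (by positivity)]
  have h7 : ((70 * k : ℕ) : ℝ) + 1 ≤ 71 * k := by push_cast; linarith
  have h8 : (2 : ℝ) ^ l * 3 ^ m ≤ 2 ^ (21 * k) * 2 ^ (2 * k) :=
    mul_le_mul h5 h3 (by positivity) (by positivity)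
  have h9 : (568 : ℝ) * k ≤ 2 ^ (10 * k) * 2 ^ k := mul_le_mul h6 hk2 (by positivity) (by positivity)
  have h10 : (1 : ℝ) / 2 ^ k ≤ (0.98 : ℝ) ^ k := by
    rw [← one_div_pow]; exact h4
  calc (D + 3) * (((70 * k : ℕ) : ℝ) + 1) * 2 ^ (294 * k) * (2 * (2 ^ l * 3 ^ m))
      ≤ (4 * D) * (71 * k) * 2 ^ (294 * k) * (2 * (2 ^ (21 * k) * 2 ^ (2 * k))) := by
        gcongr
        linarith
    _ = D * (568 * k) * (2 ^ (294 * k) * (2 ^ (21 * k) * 2 ^ (2 * k))) := by ring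
    _ ≤ D * (2 ^ (10 * k) * 2 ^ k) * (2 ^ (294 * k) * (2 ^ (21 * k) * 2 ^ (2 * k))) := by
        gcongr
    _ = D * 2 ^ (328 * k) := by
        rw [show 328 * k = 10 * k + k + (294 * k + (21 * k + 2 * k)) by ring, pow_add, pow_add,
          pow_add, pow_add]
        ring
    _ ≤ D * 2 ^ (4999 * k) := by
        have : (2 : ℝ) ^ (328 * k) ≤ 2 ^ (4999 * k) :=
          pow_le_pow_right₀ (by norm_num) (by nlinarith)
        exact mul_le_mul_of_nonneg_left this (by linarith)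
    _ = D * 2 ^ (5000 * k) * (1 / 2 ^ k) := by
        rw [show 5000 * k = 4999 * k + k by ring, pow_add]
        field_simp
    _ ≤ D * y * (0.98 : ℝ) ^ k := by
        have : (0 : ℝ) ≤ D := by linarith
        gcongr

/-- The other error terms: `tail_bound (14 k)` (`10·14k = 140k = 2·(70k)`, `21·14k = 294k`; `Icc (266k) (294k) ⊆ range (294k+1)`, `nb_nonneg`) gives
`1 - ∑ nb ≤ 2·0.98^(14k) ≤ 2·0.98^k`; `0.998^(70k) ≤ (0.87)^k` (`0.998^70 ≤ 0.87` by `norm_num`) and `71 k · 0.87^k ≤ E' · 0.98^k` with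
`E' = 71·10`: `k·(0.87/0.98)^k ≤ k (9/10)^k ≤ 10` (Bernoulli: `(10/9)^k ≥ 1 + k/9 ≥ k/10`, or `b5_exp`-like; any explicit or existential constant is fine).
Result with `E = 1000`. -/
theorem flat_err (k : ℕ) (hk1 : 1 ≤ k) :
    (1 - ∑ l ∈ range (294 * k + 1), nb (2 * (70 * k)) l) +
      (((70 * k : ℕ) : ℝ) + 1) * (0.998 : ℝ) ^ (70 * k) ≤ 1000 * (0.98 : ℝ) ^ k := by
  have h1 := tail_bound (14 * k)
  have h2 : ∑ l ∈ Icc (19 * (14 * k)) (21 * (14 * k)), nb (10 * (14 * k)) l ≤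
      ∑ l ∈ range (294 * k + 1), nb (2 * (70 * k)) l := by
    rw [show 2 * (70 * k) = 10 * (14 * k) by ring]
    refine Finset.sum_le_sum_of_subset_of_nonneg ?_ (fun l _ _ => nb_nonneg _ _)
    intro l hl
    simp only [mem_Icc, mem_range] at hl ⊢
    omega
  have h3 : (0.98 : ℝ) ^ (14 * k) ≤ (0.98 : ℝ) ^ k :=
    pow_le_pow_of_le_one (by norm_num) (by norm_num) (by omega)
  have h4 : (0.998 : ℝ) ^ (70 * k) ≤ (0.87 : ℝ) ^ k := by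
    rw [pow_mul]
    exact pow_le_pow_left₀ (by positivity) (by norm_num) k
  have hk1' : (1 : ℝ) ≤ k := by exact_mod_cast hk1
  have h5 : ((70 * k : ℕ) : ℝ) + 1 ≤ 71 * k := by push_cast; linarith
  have h6 : (k : ℝ) * (0.87 : ℝ) ^ k ≤ 9 * (0.98 : ℝ) ^ k := by
    have hb : 1 + (k : ℝ) * (1 / 9) ≤ (1 + 1 / 9) ^ k := one_add_mul_le_pow (by norm_num) k
    have hb2 : (k : ℝ) ≤ 9 * (10 / 9) ^ k := by
      have : (1 + 1 / 9 : ℝ) = 10 / 9 := by norm_num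
      rw [this] at hb
      linarith
    calc (k : ℝ) * (0.87 : ℝ) ^ k ≤ 9 * (10 / 9) ^ k * (0.87 : ℝ) ^ k := by gcongr
      _ = 9 * ((10 / 9) * 0.87) ^ k := by rw [mul_assoc, ← mul_pow]
      _ ≤ 9 * (0.98 : ℝ) ^ k := by
          gcongr
          norm_num
  have h7 : (((70 * k : ℕ) : ℝ) + 1) * (0.998 : ℝ) ^ (70 * k) ≤ 71 * k * (0.87 : ℝ) ^ k :=
    mul_le_mul h5 h4 (by positivity) (by positivity)
  have h8 : (0 : ℝ) < (0.98 : ℝ) ^ k := by positivity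
  nlinarith

/-- `flat_bound` with `B := D B` (`D = |d|`), `n := 70 k`, `K := 10k + m` (`6 (11 k) ≤ 70 k`), `L := 294 k`, `t := t - l`, `z := 3^(10k) (D y)/2^l`.
Let `z' = 3^(10k) y/2^l` (so `z = D z'`), `x = logb 2 y`; `b5_logz`, `logb_three`: `x - 5.2 k ≤ logb z' ≤ x - 3.15 k`. For `n' ∈ [70k, 140k]`, `l' ≤ 294 k`, `19 n' ≤ 10 l'`
put `w = 3^n' z'/2^l'`: `logb w = logb z' + n' log₂3 - l' ≥ x - 5.2k + 110.6 k - 294 k = x - 188.6 k ≥ 0.962 x` (`k ≤ x/5000`), and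
`logb w ≤ logb z' + 1.585 n' - 1.9 n' ≤ x - 3.15 k ≤ 0.9997 x` (`k ≥ x/5025`). Hypothesis `hw` at `w` with `m = 0`, `r = 0`, `t := t - l - l'`:
time: `8 logb w = 8x + 8·(10 k + n') log₂3 - 8 l - 8 l' ≤ t - l - l'` because `8·1.585·(10k + n') = 126.8 k + 12.68 n' ≤ 7·19k + 13.3 n' ≤ 7 l + 7 l'`.
`3^n' (D z')/2^l' = D w`, `2·3^0 = 2`. Then `flat_triv`, `flat_err` (`z/(2·3^K) ≥ 0`), and `3 β (70k+1)(294k+1) ≤ 3·71·295 k² β ≤ 65000 k² β`. -/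
theorem flat_scale {d : ℤ} (hd : Odd d) (h3 : ¬ (3 : ℤ) ∣ d) {B β y : ℝ} {k m l t : ℕ}
    (r : ℤ) (hk1 : 1 ≤ k) (hy : 0 < y) (hβ0 : 0 ≤ β)
    (hk : 5000 * (k : ℝ) ≤ Real.logb 2 y) (hk' : Real.logb 2 y ≤ 5025 * (k : ℝ)) (hm : m ≤ k)
    (ht : 8 * Real.logb 2 y ≤ t) (hl1 : 19 * k ≤ l) (hl2 : l ≤ 21 * k)
    (hw : ∀ w : ℝ, 0 < w → 0.962 * Real.logb 2 y ≤ Real.logb 2 w →
      Real.logb 2 w ≤ 0.9997 * Real.logb 2 y → densP d B β w) :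
    (cnt d (|(d : ℝ)| * B) (t - l) (10 * k + m) r (3 ^ (10 * k) * (|(d : ℝ)| * y) / 2 ^ l) : ℝ) ≤
      (65000 * (k : ℝ) ^ 2 * β + 1001 * (0.98 : ℝ) ^ k) *
        ((3 ^ (10 * k) * (|(d : ℝ)| * y) / 2 ^ l) / (2 * 3 ^ (10 * k + m))) := by
  have hlt := logb_three
  have hD := u2_abs hd
  obtain ⟨D, hDdef⟩ : ∃ D : ℝ, D = |(d : ℝ)| := ⟨_, rfl⟩
  rw [← hDdef] at hD
  have hD0 : 0 < D := by linarith
  have k1 : (1 : ℝ) ≤ k := by exact_mod_cast hk1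
  have k0 : (0 : ℝ) < k := by linarith
  have l1' : 19 * (k : ℝ) ≤ l := by exact_mod_cast hl1
  have l2' : (l : ℝ) ≤ 21 * k := by exact_mod_cast hl2
  have hklo : 1.58 * (k : ℝ) ≤ k * Real.logb 2 3 := by nlinarith [hlt.1]
  have hkhi : k * Real.logb 2 3 ≤ 1.585 * (k : ℝ) := by nlinarith [hlt.2]
  have hLt : 294 * k + l ≤ t := by
    have : 294 * (k : ℝ) + l ≤ t := by linarith
    exact_mod_cast this
  have hzl := b5_logz hy (10 * k) l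
  push_cast at hzl
  obtain ⟨z', hz'⟩ : ∃ z' : ℝ, z' = 3 ^ (10 * k) * y / 2 ^ l := ⟨_, rfl⟩
  rw [← hz'] at hzl
  have hz0 : (0 : ℝ) < z' := by rw [hz']; positivity
  have e0 : (3 : ℝ) ^ (10 * k) * (D * y) / 2 ^ l = D * z' := by rw [hz']; ring
  have hβ' : ∀ n' ∈ Icc (70 * k) (2 * (70 * k)), ∀ l' ≤ 294 * k, 19 * n' ≤ 10 * l' →
      (cnt d (D * B) (t - l - l') 0 0 (3 ^ n' * (D * z') / 2 ^ l') : ℝ) ≤
        β * ((3 ^ n' * (D * z') / 2 ^ l') / 2) := by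
    intro n' hn' l' hl' h19
    rw [Finset.mem_Icc] at hn'
    obtain ⟨n1, n2⟩ := hn'
    have n1' : 70 * (k : ℝ) ≤ n' := by exact_mod_cast n1
    have n2' : (n' : ℝ) ≤ 140 * k := by
      have : n' ≤ 140 * k := by omega
      exact_mod_cast this
    have h19' : 19 * (n' : ℝ) ≤ 10 * l' := by exact_mod_cast h19
    have hl'' : (l' : ℝ) ≤ 294 * k := by exact_mod_cast hl'
    have hwl := b5_logz hz0 n' l'
    have hnlo : 1.58 * (n' : ℝ) ≤ n' * Real.logb 2 3 := by nlinarith [hlt.1]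
    have hnhi : n' * Real.logb 2 3 ≤ 1.585 * (n' : ℝ) := by nlinarith [hlt.2]
    have hw0 : (0 : ℝ) < 3 ^ n' * z' / 2 ^ l' := by positivity
    have e1 : (3 : ℝ) ^ n' * (D * z') / 2 ^ l' = D * (3 ^ n' * z' / 2 ^ l') := by ring
    have hmain := hw _ hw0 (by rw [hwl, hzl]; nlinarith) (by rw [hwl, hzl]; nlinarith)
      0 0 (t - l - l') (by simp) (by
        have e3 : ((t - l - l' : ℕ) : ℝ) = (t : ℝ) - l - l' := by
          rw [Nat.cast_sub (by omega), Nat.cast_sub (by omega)]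
        rw [e3, hwl, hzl]
        nlinarith)
    rw [← hDdef] at hmain
    rw [e1]
    refine hmain.trans (le_of_eq ?_)
    rw [pow_zero, mul_one]
  have hmain := flat_bound hd h3 (D * B) (70 * k) (10 * k + m) (294 * k) (t - l) r (D * z')
    (by positivity) (by omega) (by omega) β hβ0 hβ'
  rw [← hDdef] at hmain ⊢
  rw [e0]
  refine hmain.trans ?_
  have htr := flat_triv hD hy hk1 hk hm hl2
  rw [e0] at htr
  have herr := flat_err k hk1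
  have hZ : 0 < D * z' / (2 * 3 ^ (10 * k + m)) := by positivity
  have h1 : 3 * β * ((((70 * k : ℕ) : ℝ) + 1) * (((294 * k : ℕ) : ℝ) + 1)) ≤
      65000 * (k : ℝ) ^ 2 * β := by
    have g1 : ((70 * k : ℕ) : ℝ) + 1 ≤ 71 * k := by push_cast; linarith
    have g2 : ((294 * k : ℕ) : ℝ) + 1 ≤ 295 * k := by push_cast; linarith
    calc 3 * β * ((((70 * k : ℕ) : ℝ) + 1) * (((294 * k : ℕ) : ℝ) + 1))
        ≤ 3 * β * ((71 * k) * (295 * k)) := by gcongr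
      _ = 62835 * ((k : ℝ) ^ 2 * β) := by ring
      _ ≤ 65000 * ((k : ℝ) ^ 2 * β) := by
          refine mul_le_mul_of_nonneg_right (by norm_num) (by positivity)
      _ = _ := by ring
  calc _ ≤ D * z' / (2 * 3 ^ (10 * k + m)) * (65000 * (k : ℝ) ^ 2 * β + 1000 * (0.98 : ℝ) ^ k) +
        D * z' / (2 * 3 ^ (10 * k + m)) * (0.98 : ℝ) ^ k := by
        refine add_le_add (mul_le_mul_of_nonneg_left ?_ hZ.le) htr
        linarith
    _ = _ := by ring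

end Pool.Agent.Lib.MP_d0d59f_nt.PS
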