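import Pool.Agent.Lib.MP_d0d59f_nt.PS.R11
import Pool.Agent.Lib.MP_d0d59f_nt.PS.R12a
import Pool.Agent.Lib.MP_d0d59f_nt.AA.U2Step

namespace Pool.Agent.Lib.MP_d0d59f_nt.PS

open Finset AA

theorem r12_exp (k : ℕ) {x : ℝ} (hx : x ≤ 5025 * (k : ℝ)) :
    (0.98 : ℝ) ^ k ≤ (2 : ℝ) ^ (-(0.02 / 5025 * x)) := by
  have h1 : (0.98 : ℝ) ≤ Real.exp (-0.02) := by
    have := Real.add_one_le_exp (-0.02 : ℝ)
    linarith
  have h2 : (0.98 : ℝ) ^ k ≤ Real.exp (-(0.02 * k)) := by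
    calc (0.98 : ℝ) ^ k ≤ (Real.exp (-0.02)) ^ k := pow_le_pow_left₀ (by norm_num) h1 k
      _ = Real.exp (-(0.02 * k)) := by
          rw [← Real.exp_nat_mul]
          congr 1
          ring
  have h3 : (2 : ℝ) ^ (-(0.02 / 5025 * x)) = Real.exp (Real.log 2 * (-(0.02 / 5025 * x))) :=
    Real.rpow_def_of_pos (by norm_num) _
  rw [h3]
  refine h2.trans (Real.exp_le_exp.mpr ?_)
  have h4 : Real.log 2 ≤ 1 := by
    have := Real.log_two_lt_d9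
    linarith
  have h5 : 0 ≤ Real.log 2 := Real.log_nonneg (by norm_num)
  have h6 : (0.02 / 5025) * x ≤ 0.02 * k := by
    nlinarith
  have h7 : (0 : ℝ) ≤ 0.02 * k := by positivity
  nlinarith

/-- As `AA.dens_stepU`. -/
theorem dens_stepP : ∃ C c : ℝ, 0 ≤ C ∧ 0 < c ∧ ∃ y0 : ℝ, 2 ≤ y0 ∧
    ∀ (d : ℤ), Odd d → ¬ (3 : ℤ) ∣ d → ∀ (B β y : ℝ), y0 ≤ y → 0 ≤ β →
      (∀ z : ℝ, 0 < z → 0.962 * Real.logb 2 y ≤ Real.logb 2 z →
        Real.logb 2 z ≤ 0.9997 * Real.logb 2 y → densP d B β z) →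
      densP d B (β * (1 + C / (Real.logb 2 y) ^ 2) + C * (2 : ℝ) ^ (-(c * Real.logb 2 y))) y := by
  obtain ⟨C1, hC1, hosc⟩ := osc_boundU 4
  have hlt := logb_three
  obtain ⟨y0, hy0⟩ : ∃ y0 : ℝ, y0 = max 2 ((2 : ℝ) ^ (1050000 : ℝ)) := ⟨_, rfl⟩
  have hy02 : 2 ≤ y0 := hy0 ▸ le_max_left _ _
  have hy0' : (2 : ℝ) ^ (1050000 : ℝ) ≤ y0 := hy0 ▸ le_max_right _ _
  obtain ⟨C, hCdef⟩ : ∃ C : ℝ, C = 65000 * C1 * 5025 ^ 2 + (1001 * C1 + 14) := ⟨_, rfl⟩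
  have hC0 : 0 ≤ C := by rw [hCdef]; positivity
  have hCa : 65000 * C1 * 5025 ^ 2 ≤ C := by rw [hCdef]; linarith
  have hCb : 1001 * C1 + 14 ≤ C := by
    rw [hCdef]
    have : 0 ≤ 65000 * C1 * 5025 ^ 2 := by positivity
    linarith
  refine ⟨C, 0.02 / 5025, hC0, by norm_num, y0, hy02, ?_⟩
  intro d hd h3 B β y hy hβ hz m r t hm ht
  have hD := u2_abs hd
  have hy1 : 0 < y := lt_of_lt_of_le (by norm_num) (hy02.trans hy)
  have hly : 1050000 ≤ Real.logb 2 y := by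
    rw [Real.le_logb_iff_rpow_le (by norm_num) hy1]
    exact hy0'.trans hy
  clear hy0 hy0'
  obtain ⟨k1, k2, k3⟩ := kp_bounds hly
  obtain ⟨k, hk⟩ : ∃ k, k = kp y := ⟨_, rfl⟩
  rw [← hk] at k1 k2 k3 hm
  have k4 : (200 : ℝ) ≤ k := by exact_mod_cast k3
  have k5 : 1 ≤ k := by omega
  have hmk : m ≤ k := by
    rcases Nat.eq_zero_or_pos m with h | h
    · omega
    · exact (Nat.le_mul_self m).trans hm
  have hLt : 21 * k ≤ t := by
    have : (21 * (k : ℝ)) ≤ t := by linarith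
    exact_mod_cast this
  have hm' : Nat.sqrt (k / 2) ≤ 10 * k + m := by
    have := Nat.sqrt_le_self (k / 2)
    omega
  have hF : ∀ l ∈ Icc (19 * k) (21 * k), ∀ r' : ℤ,
      (cnt d (|(d : ℝ)| * B) (t - l) (10 * k + m) r' (3 ^ (10 * k) * (|(d : ℝ)| * y) / 2 ^ l) : ℝ) ≤
      (65000 * (k : ℝ) ^ 2 * β + 1001 * (0.98 : ℝ) ^ k) *
        ((3 ^ (10 * k) * (|(d : ℝ)| * y) / 2 ^ l) / (2 * 3 ^ (10 * k + m))) := by
    intro l hl' r'
    rw [Finset.mem_Icc] at hl'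
    exact flat_scale hd h3 r' k5 hy1 hβ k1 k2 hmk ht hl'.1 hl'.2 hz
  obtain ⟨D, hDdef⟩ : ∃ D : ℝ, D = |(d : ℝ)| := ⟨_, rfl⟩
  rw [← hDdef] at hD
  have hD0 : 0 < D := by linarith
  have hDy : 0 < D * y := by positivity
  rw [← hDdef] at hF
  have hβ' : ∀ l ∈ Icc (19 * k) (21 * k), ∀ r' : ℤ,
      (cnt d (D * B) (t - l) (Nat.sqrt (k / 2)) r' (3 ^ (10 * k) * (D * y) / 2 ^ l) : ℝ) ≤
      β * ((3 ^ (10 * k) * (D * y) / 2 ^ l) / (2 * 3 ^ (Nat.sqrt (k / 2)))) := by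
    intro l hl' r'
    rw [Finset.mem_Icc] at hl'
    obtain ⟨l1, l2⟩ := hl'
    have l1' : 19 * (k : ℝ) ≤ l := by exact_mod_cast l1
    have l2' : (l : ℝ) ≤ 21 * k := by exact_mod_cast l2
    have hzl := b5_logz hy1 (10 * k) l
    push_cast at hzl
    have hz0 : (0 : ℝ) < 3 ^ (10 * k) * y / 2 ^ l := by positivity
    have hklo : 1.58 * (k : ℝ) ≤ k * Real.logb 2 3 := by nlinarith [hlt.1]
    have hkhi : k * Real.logb 2 3 ≤ 1.585 * (k : ℝ) := by nlinarith [hlt.2]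
    have hlo' : Real.logb 2 y - 5.2 * k ≤ Real.logb 2 (3 ^ (10 * k) * y / 2 ^ l) := by
      rw [hzl]
      nlinarith
    have hhi' : Real.logb 2 (3 ^ (10 * k) * y / 2 ^ l) ≤ Real.logb 2 y - 3.15 * k := by
      rw [hzl]
      nlinarith
    have hlo : 0.962 * Real.logb 2 y ≤ Real.logb 2 (3 ^ (10 * k) * y / 2 ^ l) := by
      linarith
    have hhi : Real.logb 2 (3 ^ (10 * k) * y / 2 ^ l) ≤ 0.9997 * Real.logb 2 y := by
      linarith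
    have e0 : (3 : ℝ) ^ (10 * k) * (D * y) / 2 ^ l = D * (3 ^ (10 * k) * y / 2 ^ l) := by ring
    rw [e0]
    have hmain := hz _ hz0 hlo hhi (Nat.sqrt (k / 2)) r' (t - l) ?_ ?_
    · rw [← hDdef] at hmain
      exact hmain
    · have e1 : Nat.sqrt (k / 2) * Nat.sqrt (k / 2) ≤ k / 2 := Nat.sqrt_le (k / 2)
      refine e1.trans ?_
      unfold kp
      refine Nat.le_floor ?_
      have e2 : ((k / 2 : ℕ) : ℝ) ≤ (k : ℝ) / 2 := Nat.cast_div_le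
      rw [le_div_iff₀ (by norm_num)]
      linarith
    · have e3 : ((t - l : ℕ) : ℝ) = (t : ℝ) - l := Nat.cast_sub (l2.trans hLt)
      rw [e3, hzl]
      nlinarith
  have hΦ0 : 0 ≤ 65000 * (k : ℝ) ^ 2 * β + 1001 * (0.98 : ℝ) ^ k := by positivity
  have hmain := dens_countF hd h3 (D * B) (10 * k) m (Nat.sqrt (k / 2)) (19 * k) (21 * k) t hm' r
    (D * y) hDy hLt β (65000 * (k : ℝ) ^ 2 * β + 1001 * (0.98 : ℝ) ^ k) hβ hΦ0 hβ' hF
  rw [← hDdef] at hmain ⊢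
  have ho := hosc d h3 k m r k5 hm
  have htl := tail_bound k
  have htr := b5_triv hy1 (k := k) (by linarith) hmk
  have hY : 0 < D * y / (2 * 3 ^ m) := by positivity
  have htr' : (D + 3) * (2 : ℝ) ^ (21 * k) ≤ D * y / (2 * 3 ^ m) * (12 * (0.98 : ℝ) ^ k) := by
    calc (D + 3) * (2 : ℝ) ^ (21 * k) ≤ (6 * D) * 2 ^ (21 * k) :=
          mul_le_mul_of_nonneg_right (by linarith) (by positivity)
      _ ≤ (6 * D) * (y / (2 * 3 ^ m) * (2 * (0.98 : ℝ) ^ k)) :=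
          mul_le_mul_of_nonneg_left htr (by positivity)
      _ = _ := by ring
  have hk0 : (0 : ℝ) < k := by linarith
  have hly0 : 0 < Real.logb 2 y := by linarith
  have q0 : (0 : ℝ) ≤ (0.98 : ℝ) ^ k := by positivity
  -- the oscillation term
  have hosc2 : (65000 * (k : ℝ) ^ 2 * β + 1001 * (0.98 : ℝ) ^ k) *
      osc d r (10 * k + m) (Nat.sqrt (k / 2)) (10 * k) (21 * k) ≤
      65000 * C1 * β / (k : ℝ) ^ 2 + 1001 * C1 * (0.98 : ℝ) ^ k := by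
    have a1 := mul_le_mul_of_nonneg_left ho hΦ0
    refine a1.trans ?_
    have a2 : (65000 * (k : ℝ) ^ 2 * β + 1001 * (0.98 : ℝ) ^ k) * (C1 / (k : ℝ) ^ 4) =
        65000 * C1 * β / (k : ℝ) ^ 2 + 1001 * C1 * (0.98 : ℝ) ^ k * (1 / (k : ℝ) ^ 4) := by
      field_simp
    rw [a2]
    have a3 : 1 / (k : ℝ) ^ 4 ≤ 1 := by
      rw [div_le_one (by positivity)]
      exact one_le_pow₀ (by linarith)
    have a4 : 0 ≤ 1001 * C1 * (0.98 : ℝ) ^ k := by positivity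
    have a5 := mul_le_mul_of_nonneg_left a3 a4
    linarith
  have s1 : (cnt d (D * B) t m r (D * y) : ℝ) ≤ D * y / (2 * 3 ^ m) *
      (β + (65000 * C1 * β / (k : ℝ) ^ 2 + (1001 * C1 + 14) * (0.98 : ℝ) ^ k)) := by
    have s2 : D * y / (2 * 3 ^ m) * (β + (65000 * (k : ℝ) ^ 2 * β + 1001 * (0.98 : ℝ) ^ k) *
        osc d r (10 * k + m) (Nat.sqrt (k / 2)) (10 * k) (21 * k)
        + (1 - ∑ l ∈ Icc (19 * k) (21 * k), nb (10 * k) l)) ≤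
        D * y / (2 * 3 ^ m) * (β + (65000 * C1 * β / (k : ℝ) ^ 2 + 1001 * C1 * (0.98 : ℝ) ^ k)
          + 2 * (0.98 : ℝ) ^ k) :=
      mul_le_mul_of_nonneg_left (by linarith) hY.le
    calc (cnt d (D * B) t m r (D * y) : ℝ) ≤ _ := hmain
      _ ≤ D * y / (2 * 3 ^ m) * (β + (65000 * C1 * β / (k : ℝ) ^ 2 + 1001 * C1 * (0.98 : ℝ) ^ k)
          + 2 * (0.98 : ℝ) ^ k) +
          D * y / (2 * 3 ^ m) * (12 * (0.98 : ℝ) ^ k) := add_le_add s2 htr'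
      _ = _ := by ring
  have s4 : β + (65000 * C1 * β / (k : ℝ) ^ 2 + (1001 * C1 + 14) * (0.98 : ℝ) ^ k) ≤
      β * (1 + C / (Real.logb 2 y) ^ 2) + C * (2 : ℝ) ^ (-(0.02 / 5025 * Real.logb 2 y)) := by
    have s5 := r12_exp k k2
    have s6 : (1001 * C1 + 14) * (0.98 : ℝ) ^ k ≤
        C * (2 : ℝ) ^ (-(0.02 / 5025 * Real.logb 2 y)) :=
      mul_le_mul hCb s5 q0 hC0
    have s7 : 65000 * C1 * β / (k : ℝ) ^ 2 ≤ β * (C / (Real.logb 2 y) ^ 2) := by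
      have s8 : Real.logb 2 y ^ 2 ≤ 5025 ^ 2 * (k : ℝ) ^ 2 := by
        rw [← mul_pow]
        exact pow_le_pow_left₀ hly0.le k2 2
      rw [← mul_div_assoc, div_le_div_iff₀ (by positivity) (by positivity)]
      calc 65000 * C1 * β * Real.logb 2 y ^ 2
          ≤ 65000 * C1 * β * (5025 ^ 2 * (k : ℝ) ^ 2) :=
            mul_le_mul_of_nonneg_left s8 (by positivity)
        _ = β * (65000 * C1 * 5025 ^ 2) * (k : ℝ) ^ 2 := by ring
        _ ≤ β * C * (k : ℝ) ^ 2 :=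
            mul_le_mul_of_nonneg_right (mul_le_mul_of_nonneg_left hCa hβ) (by positivity)
    linarith
  calc (cnt d (D * B) t m r (D * y) : ℝ) ≤ _ := s1
    _ ≤ D * y / (2 * 3 ^ m) * (β * (1 + C / (Real.logb 2 y) ^ 2) +
        C * (2 : ℝ) ^ (-(0.02 / 5025 * Real.logb 2 y))) :=
        mul_le_mul_of_nonneg_left s4 hY.le
    _ = _ := by ring

end Pool.Agent.Lib.MP_d0d59f_nt.PS
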