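import Pool.Agent.Lib.MP_d0d59f_nt.PS.Defs
import Pool.Agent.Lib.MP_d0d59f_nt.AA.U3Base

namespace Pool.Agent.Lib.MP_d0d59f_nt.PS

open Finset AA

/-- `b6_err` with a power: `0.98^k ≤ exp(-0.02 k) ≤ exp(-0.0004 y) ≤ 2^(-(0.0004 y))`, `2^(-0.57 x) ≤ 2^(-(0.0004 y))`. -/
theorem err_pow {k : ℕ} {x y : ℝ} (hy : 0 < y) (hyx : y ≤ x) (hk : x / 50 ≤ k) :
    2 * (0.98 : ℝ) ^ k + 2 ^ 23 * (2 : ℝ) ^ (-(0.57 * x)) ≤
      (2 + 2 ^ 23) * (2 : ℝ) ^ (-(0.0004 * y)) := by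
  have h1 : (0.98 : ℝ) ^ k ≤ (2 : ℝ) ^ (-(0.0004 * y)) := by
    have e1 : (0.98 : ℝ) ≤ Real.exp (-0.02) := by
      have := Real.add_one_le_exp (-0.02 : ℝ)
      linarith
    have e2 : (0.98 : ℝ) ^ k ≤ Real.exp (-0.02) ^ k := pow_le_pow_left₀ (by norm_num) e1 k
    have e3 : Real.exp (-0.02) ^ k = Real.exp (-0.02 * k) := by
      rw [← Real.exp_nat_mul, mul_comm]
    have e4 : Real.exp (-0.02 * k) ≤ Real.exp (Real.log 2 * (-(0.0004 * y))) := by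
      apply Real.exp_le_exp.2
      have hl1 : Real.log 2 ≤ 1 := by
        have := Real.log_two_lt_d9
        linarith
      have hk' : y / 50 ≤ k := by linarith
      have h2 : Real.log 2 * (0.0004 * y) ≤ 1 * (0.0004 * y) :=
        mul_le_mul_of_nonneg_right hl1 (by positivity)
      nlinarith
    rw [Real.rpow_def_of_pos (by norm_num)]
    exact e2.trans (e3.le.trans e4)
  have h2 : (2 : ℝ) ^ (-(0.57 * x)) ≤ (2 : ℝ) ^ (-(0.0004 * y)) := by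
    apply Real.rpow_le_rpow_of_exponent_le (by norm_num)
    nlinarith
  nlinarith

/-- Copy the proof of `AA.dens_baseU` (`U3Base.lean`), with `densP` for `densU` (`m * m ≤ kp z` gives `m ≤ x/5000 ≤ x/250`), and `err_pow` at the end. `B0 = 2^200`. -/
theorem dens_baseP : ∃ C c : ℝ, 0 ≤ C ∧ 0 < c ∧
    ∃ B0 : ℝ, 2 ≤ B0 ∧ ∀ (d : ℤ), Odd d → ∀ B z : ℝ, B0 ≤ B → B ≤ z →
      Real.logb 2 z ≤ 1.05 * Real.logb 2 B →
      densP d B (C * (2 : ℝ) ^ (-(c * Real.logb 2 B))) z := by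
  refine ⟨2 + 2 ^ 23, 0.0004, by positivity, by norm_num, (2 : ℝ) ^ 200, by norm_num, ?_⟩
  intro d hd B z hB1 hBz hlog m r t hm ht
  have hD := u2_abs hd
  obtain ⟨D, hDdef⟩ : ∃ D : ℝ, D = |(d : ℝ)| := ⟨_, rfl⟩
  rw [← hDdef] at hD ⊢
  have hD0 : 0 < D := by linarith
  have hB0 : 0 < B := lt_of_lt_of_le (by positivity) hB1
  have hz0 : 0 < z := hB0.trans_le hBz
  have hDz : 0 < D * z := by positivity
  set x := Real.logb 2 z with hx
  set y := Real.logb 2 B with hy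
  have hzx : z = (2 : ℝ) ^ x := by
    rw [hx, Real.rpow_logb (by norm_num) (by norm_num) hz0]
  have hyx : y ≤ x := Real.logb_le_logb_of_le (by norm_num) hB0 hBz
  have hy200 : 200 ≤ y := by
    rw [hy, Real.le_logb_iff_rpow_le (by norm_num) hB0]
    exact_mod_cast hB1
  have hx0 : 0 ≤ x := by linarith
  set k := ⌈x / 50⌉₊ with hk
  have hk1 : x / 50 ≤ k := Nat.le_ceil _
  have hk2 : (k : ℝ) ≤ x / 50 + 1 := (Nat.ceil_lt_add_one (by positivity)).le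
  have hm' : (m : ℝ) ≤ x / 250 := by
    have h1 : m ≤ m * m := Nat.le_mul_self m
    have h2 : ((kp z : ℕ) : ℝ) ≤ x / 5000 := Nat.floor_le (by positivity)
    have h3 : ((m : ℕ) : ℝ) ≤ ((kp z : ℕ) : ℝ) := by exact_mod_cast h1.trans hm
    have h4 := h3.trans h2
    linarith
  have hsub : {N : ℤ | N ∈ itv (D * z) (2 * (D * z)) ∧ Odd N ∧ N ≡ r [ZMOD 3 ^ m] ∧
      bad d (D * B) t N} ⊆
      {N : ℤ | N ∈ itv (D * z) (2 * (D * z)) ∧ Odd N ∧ N ≡ r [ZMOD 3 ^ m] ∧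
        ¬ ∃ (e : List ℕ) (M : ℤ), e.length = 10 * k ∧ 19 * k ≤ e.sum ∧ e.sum ≤ 21 * k ∧
          isPath d e N M} := by
    rintro N ⟨hN1, hN2, hN3, hN4⟩
    refine ⟨hN1, hN2, hN3, ?_⟩
    rintro ⟨e, M, hl, hs1, hs2, hp⟩
    have hst : e.sum ≤ t := by
      have h1 : ((e.sum : ℕ) : ℝ) ≤ ((21 * k : ℕ) : ℝ) := by exact_mod_cast hs2
      have h2 : ((e.sum : ℕ) : ℝ) ≤ (t : ℝ) := by
        refine h1.trans (le_trans ?_ ht)
        push_cast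
        nlinarith
      exact_mod_cast h2
    have hbad := hN4 e.sum hst
    rw [isPath_iterate hd hp] at hbad
    obtain ⟨hNz1, hNz2⟩ := mem_itv.1 hN1
    have h1 := b6_end hDz hNz1 hNz2 hl hs1 hp
    rw [← hDdef] at h1
    have h2 := b6_final (D := 1) hy hB1 zero_le_one (by
      refine le_trans ?_ hB1
      norm_num) hyx hlog
    have h3 := b6_ratio (x := x) hk1
    have h4 := b6_growth hx0 hk2
    have h5 : 2 * (D * z) * (3 ^ 10 / 2 ^ 19 : ℝ) ^ k + D * (3 / 2 : ℝ) ^ (10 * k) ≤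
        D * (2 * (2 : ℝ) ^ x * (2 : ℝ) ^ (-(0.063 * x)) + 1 * (58 * (2 : ℝ) ^ (0.12 * x))) := by
      rw [← hzx]
      have e1 : 2 * (D * z) * (3 ^ 10 / 2 ^ 19 : ℝ) ^ k + D * (3 / 2 : ℝ) ^ (10 * k) =
          D * (2 * z * (3 ^ 10 / 2 ^ 19 : ℝ) ^ k + 1 * (3 / 2 : ℝ) ^ (10 * k)) := by ring
      rw [e1]
      gcongr
    have h6 := mul_le_mul_of_nonneg_left h2 hD0.le
    linarith
  have hfin : {N : ℤ | N ∈ itv (D * z) (2 * (D * z)) ∧ Odd N ∧ N ≡ r [ZMOD 3 ^ m] ∧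
        ¬ ∃ (e : List ℕ) (M : ℤ), e.length = 10 * k ∧ 19 * k ≤ e.sum ∧ e.sum ≤ 21 * k ∧
          isPath d e N M}.Finite :=
    (itv (D * z) (2 * (D * z))).finite_toSet.subset fun N hN => hN.1
  have hcnt : (cnt d (D * B) t m r (D * z) : ℝ) ≤ D * z / (2 * 3 ^ m) *
      (1 - ∑ l ∈ Icc (19 * k) (21 * k), nb (10 * k) l) + 2 ^ (21 * k + 1) := by
    refine le_trans ?_ (exc_count hd (10 * k) (19 * k) (21 * k) m r (D * z) hDz)
    unfold cnt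
    exact_mod_cast Set.ncard_le_ncard hsub hfin
  have ht := tail_bound k
  have hq0 : 0 < z / (2 * 3 ^ m) := by positivity
  have hq1 : 0 < D * z / (2 * 3 ^ m) := by positivity
  have h1 := b6_small hzx hx0 hk2 hm'
  have h1' : (2 : ℝ) ^ (21 * k + 1) ≤ 2 ^ 23 * (2 : ℝ) ^ (-(0.57 * x)) * (D * z / (2 * 3 ^ m)) := by
    refine h1.trans ?_
    have e1 : D * z / (2 * 3 ^ m) = D * (z / (2 * 3 ^ m)) := by ring
    rw [e1]
    refine mul_le_mul_of_nonneg_left ?_ (by positivity)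
    exact le_mul_of_one_le_left hq0.le hD
  calc (cnt d (D * B) t m r (D * z) : ℝ)
      ≤ D * z / (2 * 3 ^ m) * (1 - ∑ l ∈ Icc (19 * k) (21 * k), nb (10 * k) l)
        + 2 ^ (21 * k + 1) := hcnt
    _ ≤ D * z / (2 * 3 ^ m) * (2 * (0.98 : ℝ) ^ k)
        + 2 ^ 23 * (2 : ℝ) ^ (-(0.57 * x)) * (D * z / (2 * 3 ^ m)) := by
        have h2 := mul_le_mul_of_nonneg_left ht hq1.le
        linarith
    _ = (2 * (0.98 : ℝ) ^ k + 2 ^ 23 * (2 : ℝ) ^ (-(0.57 * x))) * (D * z / (2 * 3 ^ m)) := by ring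
    _ ≤ _ := by
        apply mul_le_mul_of_nonneg_right _ hq1.le
        exact err_pow (by linarith) hyx hk1

end Pool.Agent.Lib.MP_d0d59f_nt.PS
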