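import Pool.Agent.Lib.MP_d0d59f_nt.PS.R12
import Pool.Agent.Lib.MP_d0d59f_nt.PS.R13

namespace Pool.Agent.Lib.MP_d0d59f_nt.PS

open Finset AA

theorem r14_mono {d : ℤ} {B β β' y : ℝ} (hy : 0 ≤ y) (h : densP d B β y) (hβ : β ≤ β') :
    densP d B β' y := by
  intro m r t hm ht
  refine (h m r t hm ht).trans (mul_le_mul_of_nonneg_right hβ (by positivity))

theorem r14_two_pow (a : ℝ) (ha : 0 < a) : a / 2 ≤ (2 : ℝ) ^ a := by
  rw [Real.rpow_def_of_pos (by norm_num : (0 : ℝ) < 2)]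
  have h1 := Real.add_one_le_exp (Real.log 2 * a)
  have h2 : (0.5 : ℝ) ≤ Real.log 2 := by
    have := Real.log_two_gt_d9
    linarith
  nlinarith

/-- Template: `AA.u4_main` (`U4Induct.lean`), with the potential `f(x) = M 2^(-c u) (2 - u/x)`, `u = logb 2 B`, `x = logb 2 y`. Constants: `Cs, cs, y0` (step), `Cb, cb, B1` (base);
`c = min cb (cs/2)`; `K1` with `x 2^(-(cs/2) x) ≤ K1` for `x > 0` (e.g. `K1 = 2/cs·2`: `2^(a) ≥ 1 + a log 2 ≥ a/2`, so `x ≤ (2/(cs/2)) 2^((cs/2)x)`);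
`M = Cb + Cs K1/0.00015`; `B0 = max y0 B1` and large enough that `u² ≥ 2 Cs/0.00015`, `u ≥ 1` (`B0 = max (max y0 B1) (2^(1 + 2 Cs/0.00015))`).
Claim by induction on `j`: for all `y ≥ B` with `x ≤ 1.05 u (1/0.9997)^j`: `densP d B (f x) y`. If `x ≤ 1.05 u`: base, `Cb 2^(-cb u) ≤ M 2^(-c u)·1 ≤ f x`
(`u ≤ x`). If `x > 1.05 u`: every `z` with `0.962 x ≤ logb z ≤ 0.9997 x` has `logb z ≥ 1.01 u`, so `z ≥ B`, and `logb z ≤ 1.05 u (1/0.9997)^(j-1)`;
`f` is increasing, so `densP d B β z` with `β = f(0.9997 x) ≥ 0`, and by `dens_stepP` it is enough that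
`β (1 + Cs/x²) + Cs 2^(-cs x) ≤ f x`: `f x - β = M 2^(-cu) (u/x)(1/0.9997 - 1) ≥ 0.0003 M 2^(-cu) u/x`, `β Cs/x² ≤ 2 M 2^(-cu) Cs/x² ≤ 0.00015 M 2^(-cu) u/x` (`2 Cs ≤ 0.00015 u x`), and
`Cs 2^(-cs x) ≤ Cs (K1/x) 2^(-(cs/2) x) ≤ Cs K1/x 2^(-c u) ≤ 0.00015 M 2^(-cu) u/x`. Finally `f x ≤ 2 M 2^(-cu)`. -/
theorem dens_allP : ∃ C c : ℝ, 0 ≤ C ∧ 0 < c ∧ ∃ B0 : ℝ, 2 ≤ B0 ∧
    ∀ (d : ℤ), Odd d → ¬ (3 : ℤ) ∣ d → ∀ B y : ℝ, B0 ≤ B → B ≤ y →
      densP d B (C * (2 : ℝ) ^ (-(c * Real.logb 2 B))) y := by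
  obtain ⟨Cs, cs, hCs, hcs, y0, hy0, hstep⟩ := dens_stepP
  obtain ⟨Cb, cb, hCb, hcb, B1, hB1, hbase⟩ := dens_baseP
  obtain ⟨c, hc⟩ : ∃ c : ℝ, c = min cb (cs / 2) := ⟨_, rfl⟩
  have hc0 : 0 < c := by rw [hc]; exact lt_min hcb (by linarith)
  have hccb : c ≤ cb := by rw [hc]; exact min_le_left _ _
  have hccs : c ≤ cs / 2 := by rw [hc]; exact min_le_right _ _
  obtain ⟨K, hK⟩ : ∃ K : ℝ, K = 4 / cs := ⟨_, rfl⟩
  have hK0 : 0 < K := by rw [hK]; positivity
  obtain ⟨M, hM⟩ : ∃ M : ℝ, M = Cb + Cs * K / 0.00015 := ⟨_, rfl⟩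
  have hM0 : 0 ≤ M := by rw [hM]; positivity
  have hMCb : Cb ≤ M := by
    have : 0 ≤ Cs * K / 0.00015 := by positivity
    rw [hM]; linarith
  have hMCs : Cs * K ≤ 0.00015 * M := by
    have h : Cs * K / 0.00015 ≤ M := by rw [hM]; linarith
    rw [div_le_iff₀ (by norm_num)] at h
    linarith
  refine ⟨2 * M, c, by positivity, hc0, max (max y0 B1) ((2 : ℝ) ^ (1 + 2 * Cs / 0.00015)),
    hy0.trans ((le_max_left _ _).trans (le_max_left _ _)), fun d hd h3 B y hB hBy => ?_⟩
  have hBy0 : y0 ≤ B := ((le_max_left _ _).trans (le_max_left _ _)).trans hB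
  have hBB1 : B1 ≤ B := ((le_max_right _ _).trans (le_max_left _ _)).trans hB
  have hBe : (2 : ℝ) ^ (1 + 2 * Cs / 0.00015) ≤ B := (le_max_right _ _).trans hB
  have hB2 : (2 : ℝ) ≤ B := hy0.trans hBy0
  have hlog : ∀ v : ℝ, B ≤ v → Real.logb 2 B ≤ Real.logb 2 v := fun v hv =>
    Real.logb_le_logb_of_le (by norm_num) (by linarith) hv
  obtain ⟨u, hu⟩ : ∃ u : ℝ, u = Real.logb 2 B := ⟨_, rfl⟩
  rw [← hu] at hlog ⊢
  have hue : 1 + 2 * Cs / 0.00015 ≤ u := by
    have h := Real.logb_le_logb_of_le (b := 2) (by norm_num) (by positivity) hBe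
    rwa [Real.logb_rpow (by norm_num) (by norm_num), ← hu] at h
  have hCs' : 0 ≤ 2 * Cs / 0.00015 := by positivity
  have hu1 : 1 ≤ u := by linarith
  have hu0 : 0 < u := by linarith
  have huCs : 2 * Cs ≤ 0.00015 * u := by
    have h : 2 * Cs / 0.00015 ≤ u := by linarith
    rw [div_le_iff₀ (by norm_num)] at h
    linarith
  obtain ⟨W, hW⟩ : ∃ W : ℝ, W = M * (2 : ℝ) ^ (-(c * u)) := ⟨_, rfl⟩
  have hp0 : (0 : ℝ) < (2 : ℝ) ^ (-(c * u)) := by positivity
  have hW0 : 0 ≤ W := by rw [hW]; positivity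
  -- the claim
  have key : ∀ j : ℕ, ∀ y : ℝ, B ≤ y → Real.logb 2 y ≤ 1.05 * u * (1 / 0.9997) ^ j →
      densP d B (W * (2 - u / Real.logb 2 y)) y := by
    have hb : ∀ y : ℝ, B ≤ y → Real.logb 2 y ≤ 1.05 * u →
        densP d B (W * (2 - u / Real.logb 2 y)) y := by
      intro y hy hly
      refine r14_mono (by linarith) (hbase d hd B y hBB1 hy (by rw [← hu]; exact hly)) ?_
      rw [← hu]
      have hux : u ≤ Real.logb 2 y := hlog y hy
      have h1 : u / Real.logb 2 y ≤ 1 := (div_le_one (by linarith)).2 hux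
      have h2 : Cb * (2 : ℝ) ^ (-(cb * u)) ≤ W := by
        rw [hW]
        refine mul_le_mul hMCb ?_ (by positivity) hM0
        refine Real.rpow_le_rpow_of_exponent_le (by norm_num) ?_
        have := mul_le_mul_of_nonneg_right hccb hu0.le
        linarith
      nlinarith
    intro j
    induction j with
    | zero =>
      intro y hy hly
      exact hb y hy (by simpa using hly)
    | succ j ih =>
      intro y hy hly
      by_cases hcase : Real.logb 2 y ≤ 1.05 * u
      · exact hb y hy hcase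
      push Not at hcase
      obtain ⟨x, hx⟩ : ∃ x : ℝ, x = Real.logb 2 y := ⟨_, rfl⟩
      rw [← hx] at hcase hly ⊢
      have hx0 : 0 < x := by linarith
      have hxu : u ≤ x := by linarith
      have hx1 : 1 ≤ x := by linarith
      have h9 : 0 < 0.9997 * x := by linarith
      obtain ⟨β, hβ⟩ : ∃ β : ℝ, β = W * (2 - u / (0.9997 * x)) := ⟨_, rfl⟩
      have hdiv1 : u / (0.9997 * x) ≤ 1 := (div_le_one h9).2 (by linarith)
      have hdiv0 : 0 ≤ u / (0.9997 * x) := by positivity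
      have hβ0 : 0 ≤ β := by rw [hβ]; exact mul_nonneg hW0 (by linarith)
      have hβ2 : β ≤ 2 * W := by rw [hβ]; nlinarith
      have hst := hstep d hd h3 B β y (hBy0.trans hy) hβ0 (by
        intro z hz hz1 hz2
        rw [← hx] at hz1 hz2
        have hlz : u < Real.logb 2 z := by linarith
        have hBz : B ≤ z := by
          by_contra hcon
          push Not at hcon
          have : Real.logb 2 z ≤ Real.logb 2 B := Real.logb_le_logb_of_le (by norm_num) hz hcon.le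
          linarith
        have hle : Real.logb 2 z ≤ 1.05 * u * (1 / 0.9997) ^ j := by
          refine hz2.trans ?_
          have h1 : (0.9997 : ℝ) * x ≤ 0.9997 * (1.05 * u * (1 / 0.9997) ^ (j + 1)) :=
            mul_le_mul_of_nonneg_left hly (by norm_num)
          refine h1.trans (le_of_eq ?_)
          rw [pow_succ]
          ring
        refine r14_mono hz.le (ih z hBz hle) ?_
        rw [hβ]
        refine mul_le_mul_of_nonneg_left ?_ hW0
        have h1 : u / (0.9997 * x) ≤ u / Real.logb 2 z :=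
          div_le_div_of_nonneg_left hu0.le (by linarith) hz2
        linarith)
      rw [← hx] at hst
      refine r14_mono (by linarith) hst ?_
      -- three estimates
      have e0 : 0 < u / x := by positivity
      have e1 : β + 0.0003 * (W * (u / x)) ≤ W * (2 - u / x) := by
        rw [hβ]
        have h1 : u / (0.9997 * x) = (u / x) * (1 / 0.9997) := by
          field_simp
        rw [h1]
        have h2 : (1.0003 : ℝ) ≤ 1 / 0.9997 := by norm_num
        have h3 : (u / x) * 1.0003 ≤ (u / x) * (1 / 0.9997) :=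
          mul_le_mul_of_nonneg_left h2 e0.le
        have h4 := mul_le_mul_of_nonneg_left h3 hW0
        nlinarith
      have e2 : β * (Cs / x ^ 2) ≤ 0.00015 * (W * (u / x)) := by
        have h1 : β * (Cs / x ^ 2) ≤ 2 * W * (Cs / x ^ 2) :=
          mul_le_mul_of_nonneg_right hβ2 (by positivity)
        refine h1.trans ?_
        have h2 : 2 * W * (Cs / x ^ 2) = W * (2 * Cs / x) * (1 / x) := by
          field_simp
        have h3 : 0.00015 * (W * (u / x)) = W * (0.00015 * u) * (1 / x) := by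
          field_simp
        rw [h2, h3]
        refine mul_le_mul_of_nonneg_right (mul_le_mul_of_nonneg_left ?_ hW0) (by positivity)
        rw [div_le_iff₀ hx0]
        have : 0.00015 * u * 1 ≤ 0.00015 * u * x :=
          mul_le_mul_of_nonneg_left hx1 (by positivity)
        linarith
      have e3 : Cs * (2 : ℝ) ^ (-(cs * x)) ≤ 0.00015 * (W * (u / x)) := by
        have h1 : (2 : ℝ) ^ (-(cs * x)) = (2 : ℝ) ^ (-(cs / 2 * x)) * (2 : ℝ) ^ (-(cs / 2 * x)) := by
          rw [← Real.rpow_add (by norm_num)]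
          congr 1; ring
        have h2 : (2 : ℝ) ^ (-(cs / 2 * x)) ≤ (2 : ℝ) ^ (-(c * u)) := by
          refine Real.rpow_le_rpow_of_exponent_le (by norm_num) ?_
          have h3 : c * u ≤ cs / 2 * x := mul_le_mul hccs hxu hu0.le (by linarith)
          linarith
        have h3 : (2 : ℝ) ^ (-(cs / 2 * x)) ≤ K / x := by
          rw [Real.rpow_neg (by norm_num), inv_le_comm₀ (by positivity) (by positivity), inv_div]
          have h4 := r14_two_pow (cs / 2 * x) (by positivity)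
          refine le_trans (le_of_eq ?_) h4
          rw [hK]; field_simp; ring
        have h5 : (2 : ℝ) ^ (-(cs * x)) ≤ K / x * (2 : ℝ) ^ (-(c * u)) := by
          rw [h1]
          exact mul_le_mul h3 h2 (by positivity) (by positivity)
        have h6 : Cs * (2 : ℝ) ^ (-(cs * x)) ≤ Cs * (K / x * (2 : ℝ) ^ (-(c * u))) :=
          mul_le_mul_of_nonneg_left h5 hCs
        refine h6.trans ?_
        have h7 : Cs * (K / x * (2 : ℝ) ^ (-(c * u))) = (Cs * K) * ((2 : ℝ) ^ (-(c * u)) * (1 / x)) := by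
          field_simp
        have h8 : 0.00015 * (W * (u / x)) = (0.00015 * M * u) * ((2 : ℝ) ^ (-(c * u)) * (1 / x)) := by
          rw [hW]; field_simp
        rw [h7, h8]
        refine mul_le_mul_of_nonneg_right ?_ (by positivity)
        have h9 : 0.00015 * M * 1 ≤ 0.00015 * M * u :=
          mul_le_mul_of_nonneg_left hu1 (by positivity)
        linarith
      have e4 : β * (1 + Cs / x ^ 2) = β + β * (Cs / x ^ 2) := by ring
      rw [e4]
      linarith
  obtain ⟨j, hj⟩ : ∃ j : ℕ, Real.logb 2 y / (1.05 * u) < (1 / 0.9997 : ℝ) ^ j :=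
    pow_unbounded_of_one_lt _ (by norm_num)
  have hj' : Real.logb 2 y ≤ 1.05 * u * (1 / 0.9997) ^ j := by
    rw [div_lt_iff₀ (by positivity)] at hj
    linarith
  refine r14_mono (by linarith) (key j y hBy hj') ?_
  have hux : u ≤ Real.logb 2 y := hlog y hBy
  have h1 : 0 ≤ u / Real.logb 2 y := div_nonneg hu0.le (by linarith)
  have h2 : 2 * M * (2 : ℝ) ^ (-(c * u)) = W * 2 := by rw [hW]; ring
  rw [h2]
  exact mul_le_mul_of_nonneg_left (by linarith) hW0

end Pool.Agent.Lib.MP_d0d59f_nt.PS
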