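import Pool.Agent.Lib.MP_d0d59f_nt.PS.R14
import Pool.Agent.Lib.MP_d0d59f_nt.AA.U5Count

namespace Pool.Agent.Lib.MP_d0d59f_nt.PS

open Finset AA

/-- Copy of the proof of `AA.count_posU` (`U5Count.lean`) with `β = C 2^(-(c logb 2 B))`. -/
theorem count_posP : ∃ C c : ℝ, 0 ≤ C ∧ 0 < c ∧
    ∃ B0 : ℝ, 2 ≤ B0 ∧ ∀ (d : ℤ), Odd d → ¬ (3 : ℤ) ∣ d → ∀ B X : ℝ, B0 ≤ B → |(d : ℝ)| ≤ X →
      (Set.ncard {x : ℤ | 0 < x ∧ (x : ℝ) ≤ X ∧ ∀ k : ℕ, (k : ℝ) ≤ 20 * Real.log (X / |(d : ℝ)|) →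
        |(d : ℝ)| * B < |(((T d)^[k] x : ℤ) : ℝ)|} : ℝ) ≤
      C * X * (2 : ℝ) ^ (-(c * Real.logb 2 B)) := by
  obtain ⟨C, c, hC, hc, B0, hB0, hdens⟩ := dens_allP
  refine ⟨2 * C, c, by positivity, hc, B0, hB0, ?_⟩
  intro d hd h3 B X hB hX
  have hB2 : 2 ≤ B := hB0.trans hB
  have hD := u2_abs hd
  obtain ⟨D, hDdef⟩ : ∃ D : ℝ, D = |(d : ℝ)| := ⟨_, rfl⟩
  rw [← hDdef] at hD hX ⊢
  have hD0 : 0 < D := by linarith
  have hX1 : 1 ≤ X := hD.trans hX
  have hq1 : 1 ≤ X / D := by rwa [one_le_div hD0]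
  obtain ⟨G, hG⟩ : ∃ G : ℝ, G = D * B := ⟨_, rfl⟩
  rw [← hG]
  have hBG : B ≤ G := by rw [hG]; nlinarith
  have hGpos : 0 < G := by linarith
  obtain ⟨t, ht⟩ : ∃ t, t = ⌊20 * Real.log (X / D)⌋₊ := ⟨_, rfl⟩
  set β : ℝ := C * (2 : ℝ) ^ (-(c * Real.logb 2 B)) with hβ
  have hlB : 0 < Real.logb 2 B := Real.logb_pos (by norm_num) (by linarith)
  have hβ0 : 0 ≤ β := by positivity
  obtain ⟨M, hM⟩ : ∃ M : ℕ, X < 2 ^ M := pow_unbounded_of_one_lt X (by norm_num)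
  -- the pieces
  obtain ⟨W, hW⟩ : ∃ W : ℕ → ℕ → Set ℤ, W = fun v i =>
    {N : ℤ | N ∈ itv (G * 2 ^ i) (2 * (G * 2 ^ i)) ∧ Odd N ∧ N ≡ 0 [ZMOD 3 ^ 0] ∧
      bad d G (t - v) N} := ⟨_, rfl⟩
  have hWfin : ∀ v i, (W v i).Finite := by
    intro v i
    rw [hW]
    exact (itv (G * 2 ^ i) (2 * (G * 2 ^ i))).finite_toSet.subset (fun N hN => hN.1)
  obtain ⟨I, hI⟩ : ∃ I : ℕ → Finset ℕ, I = fun v =>
    (range M).filter (fun i => G * 2 ^ i ≤ X / 2 ^ v) := ⟨_, rfl⟩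
  have hsub : {x : ℤ | 0 < x ∧ (x : ℝ) ≤ X ∧
        ∀ k : ℕ, (k : ℝ) ≤ 20 * Real.log (X / D) → G < |(((T d)^[k] x : ℤ) : ℝ)|} ⊆
      ⋃ v ∈ range (t + 1), (fun N : ℤ => 2 ^ v * N) '' (⋃ i ∈ I v, W v i) := by
    rintro x ⟨hx0, hxX, hxb⟩
    have hlogX : 0 ≤ Real.log (X / D) := Real.log_nonneg hq1
    have hbad : bad d G t x := by
      intro k hk
      refine hxb k ?_
      have h1 : (k : ℝ) ≤ (t : ℝ) := by exact_mod_cast hk
      refine h1.trans ?_
      rw [ht]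
      exact Nat.floor_le (by positivity)
    obtain ⟨v, N, hNodd, hxN⟩ : ∃ (v : ℕ) (N : ℤ), Odd N ∧ x = 2 ^ v * N := by
      obtain ⟨k, m, hm, hkm⟩ := Nat.exists_eq_two_pow_mul_odd (n := x.toNat) (by omega)
      refine ⟨k, m, by exact_mod_cast hm, ?_⟩
      have : x = ((x.toNat : ℕ) : ℤ) := by omega
      rw [this, hkm]
      push_cast
      ring
    have hN0 : 0 < N := by
      by_contra hcon
      push Not at hcon
      have : 2 ^ v * N ≤ 0 := mul_nonpos_of_nonneg_of_nonpos (by positivity) hcon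
      omega
    have h2v : (0 : ℝ) < 2 ^ v := by positivity
    have hxr : (x : ℝ) = 2 ^ v * (N : ℝ) := by
      rw [hxN]; push_cast; ring
    have hNX : (N : ℝ) ≤ X / 2 ^ v := by
      rw [le_div_iff₀ h2v, mul_comm, ← hxr]
      exact hxX
    have hN1 : (1 : ℝ) ≤ N := by exact_mod_cast hN0
    have hxB : G < x := by
      have := hbad 0 (Nat.zero_le _)
      simp only [Function.iterate_zero, id] at this
      rwa [abs_of_pos (by exact_mod_cast hx0)] at this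
    have hvt : v ≤ t := by
      by_contra hcon
      push Not at hcon
      have h1 := hbad t le_rfl
      have h2 : x = 2 ^ t * (2 ^ (v - t) * N) := by
        rw [hxN, ← mul_assoc, ← pow_add, Nat.add_sub_cancel' hcon.le]
      rw [h2, b8_iter] at h1
      have h3 : (0 : ℝ) < ((2 ^ (v - t) * N : ℤ) : ℝ) := by
        exact_mod_cast mul_pos (by positivity) hN0
      rw [abs_of_pos h3] at h1
      have h4 : (x : ℝ) = 2 ^ t * ((2 ^ (v - t) * N : ℤ) : ℝ) := by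
        rw [h2]; push_cast; ring
      have h5 : (2 : ℝ) ^ t * G < X := by
        have : (2 : ℝ) ^ t * G < 2 ^ t * ((2 ^ (v - t) * N : ℤ) : ℝ) :=
          mul_lt_mul_of_pos_left h1 (by positivity)
        linarith
      have h6 : (2 : ℝ) ^ (t + 1) < X / D := by
        rw [lt_div_iff₀ hD0]
        have h7 : (2 : ℝ) ^ (t + 1) * D ≤ 2 ^ t * G := by
          rw [hG, pow_succ]
          have : (2 : ℝ) ^ t * D * 2 ≤ 2 ^ t * D * B :=
            mul_le_mul_of_nonneg_left hB2 (by positivity)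
          linarith
        linarith
      have h8 : ((t + 1 : ℕ) : ℝ) * Real.log 2 < Real.log (X / D) := by
        rw [← Real.log_pow]
        exact Real.log_lt_log (by positivity) h6
      have h9 : 20 * Real.log (X / D) < (t : ℝ) + 1 := by
        rw [ht]
        exact Nat.lt_floor_add_one _
      have h10 : 0.6931471803 < Real.log 2 := Real.log_two_gt_d9
      push_cast at h8
      nlinarith
    rw [hxN] at hbad
    have hbN := bad_odd_part G t v N hvt hbad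
    have hNB : G < N := by
      have := hbN 0 (Nat.zero_le _)
      simp only [Function.iterate_zero, id] at this
      rwa [abs_of_pos (by exact_mod_cast hN0)] at this
    -- the window
    obtain ⟨i, hi1, hi2⟩ : ∃ i : ℕ, G * 2 ^ i ≤ N ∧ (N : ℝ) < G * 2 ^ (i + 1) := by
      obtain ⟨n, hn1, hn2⟩ := exists_nat_pow_near (x := (N : ℝ) / G) (y := 2)
        (by rw [le_div_iff₀ hGpos]; linarith) (by norm_num)
      refine ⟨n, ?_, ?_⟩
      · rw [le_div_iff₀ hGpos] at hn1; linarith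
      · rw [div_lt_iff₀ hGpos] at hn2; linarith
    refine Set.mem_iUnion₂.2 ⟨v, Finset.mem_range.2 (by omega), N, ?_, hxN.symm⟩
    refine Set.mem_iUnion₂.2 ⟨i, ?_, ?_⟩
    · rw [hI]
      refine Finset.mem_filter.2 ⟨Finset.mem_range.2 ?_, hi1.trans hNX⟩
      by_contra hcon
      push Not at hcon
      have h1 : (2 : ℝ) ^ M ≤ 2 ^ i := pow_le_pow_right₀ (by norm_num) hcon
      have h2 : (2 : ℝ) ^ i ≤ G * 2 ^ i := by
        have : (0 : ℝ) < 2 ^ i := by positivity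
        nlinarith
      have h3 : X / 2 ^ v ≤ X := div_le_self (by linarith) (one_le_pow₀ (by norm_num))
      linarith
    · rw [hW]
      refine ⟨?_, hNodd, ?_, hbN⟩
      · unfold itv
        rw [Finset.mem_Ico]
        refine ⟨Int.ceil_le.2 hi1, Int.lt_ceil.2 ?_⟩
        rw [pow_succ] at hi2
        linarith
      · simp [Int.modEq_one]
  have hfin : (⋃ v ∈ range (t + 1), (fun N : ℤ => 2 ^ v * N) '' (⋃ i ∈ I v, W v i)).Finite := by
    refine Set.Finite.biUnion (Finset.finite_toSet _) fun v _ => Set.Finite.image _ ?_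
    exact Set.Finite.biUnion (Finset.finite_toSet _) fun i _ => hWfin v i
  have h1 := (Set.ncard_le_ncard hsub hfin).trans (b8_ncard_le_sum _ _)
  have h2 : ∀ v ∈ range (t + 1), (((fun N : ℤ => 2 ^ v * N) '' (⋃ i ∈ I v, W v i)).ncard : ℝ) ≤
      β * (X / 2 ^ v) := by
    intro v hv
    have hvt : v ≤ t := by
      have := Finset.mem_range.1 hv
      omega
    have g1 : ((fun N : ℤ => 2 ^ v * N) '' (⋃ i ∈ I v, W v i)).ncard ≤ ∑ i ∈ I v, (W v i).ncard :=
      (Set.ncard_image_le (Set.Finite.biUnion (Finset.finite_toSet _) fun i _ => hWfin v i)).trans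
        (b8_ncard_le_sum _ _)
    have g2 : ∀ i ∈ I v, ((W v i).ncard : ℝ) ≤ β / 2 * (G * 2 ^ i) := by
      intro i hi
      rw [hI] at hi
      have hi' := (Finset.mem_filter.1 hi).2
      have h2i : (1 : ℝ) ≤ 2 ^ i := one_le_pow₀ (by norm_num)
      have hi'' : B * 2 ^ i ≤ (X / D) / 2 ^ v := by
        rw [div_right_comm, le_div_iff₀ hD0]
        refine le_trans (le_of_eq ?_) hi'
        rw [hG]
        ring
      have g3 := hdens d hd h3 B (B * 2 ^ i) hB (by nlinarith) 0 0 (t - v) (by simp) (by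
        rw [ht]
        rw [ht] at hvt
        exact b8_time hB2 hi'' hvt)
      rw [← hDdef, ← mul_assoc, ← hG] at g3
      have g4 : (cnt d G (t - v) 0 0 (G * 2 ^ i) : ℝ) = ((W v i).ncard : ℝ) := by
        rw [hW]; rfl
      rw [g4] at g3
      refine g3.trans (le_of_eq ?_)
      rw [hβ]
      ring
    calc (((fun N : ℤ => 2 ^ v * N) '' (⋃ i ∈ I v, W v i)).ncard : ℝ)
        ≤ ((∑ i ∈ I v, (W v i).ncard : ℕ) : ℝ) := by exact_mod_cast g1
      _ = ∑ i ∈ I v, ((W v i).ncard : ℝ) := by push_cast; rfl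
      _ ≤ ∑ i ∈ I v, β / 2 * (G * 2 ^ i) := Finset.sum_le_sum g2
      _ = β / 2 * ∑ i ∈ I v, G * 2 ^ i := by rw [Finset.mul_sum]
      _ ≤ β / 2 * (2 * (X / 2 ^ v)) := by
          refine mul_le_mul_of_nonneg_left ?_ (by positivity)
          rw [hI]
          exact b8_geom hGpos (by positivity) M
      _ = β * (X / 2 ^ v) := by ring
  calc _ ≤ ((∑ v ∈ range (t + 1), ((fun N : ℤ => 2 ^ v * N) '' (⋃ i ∈ I v, W v i)).ncard : ℕ) : ℝ) := by
        exact_mod_cast h1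
    _ = ∑ v ∈ range (t + 1), (((fun N : ℤ => 2 ^ v * N) '' (⋃ i ∈ I v, W v i)).ncard : ℝ) := by
        push_cast; rfl
    _ ≤ ∑ v ∈ range (t + 1), β * (X / 2 ^ v) := Finset.sum_le_sum h2
    _ = β * ∑ v ∈ range (t + 1), X / 2 ^ v := by rw [Finset.mul_sum]
    _ ≤ β * (2 * X) := mul_le_mul_of_nonneg_left (b8_half X (by linarith) _) hβ0
    _ = 2 * C * X * (2 : ℝ) ^ (-(c * Real.logb 2 B)) := by rw [hβ]; ring

end Pool.Agent.Lib.MP_d0d59f_nt.PS
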