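import Pool.Agent.Lib.MP_d0d59f_nt.PS.R15
import Pool.Agent.Lib.MP_d0d59f_nt.AA.U6Main

namespace Pool.Agent.Lib.MP_d0d59f_nt.PS

open Finset AA

/-- Copy the proof of `AA.almost_allU` (`U6Main.lean`): for `B ≥ B0` from `count_posP` for `d` and `-d` (`2^(-(c logb 2 B)) = B^(-c)`: `Real.rpow_mul`, `Real.rpow_logb`), for `2 ≤ B < B0` the trivial bound `3 X ≤ 3 B0^c X B^(-c)`. -/
theorem almost_allP : ∃ c : ℝ, 0 < c ∧ ∃ C : ℝ, 0 ≤ C ∧ ∀ (d : ℤ), Odd d → ¬ (3 : ℤ) ∣ d →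
    ∀ B X : ℝ, 2 ≤ B → |(d : ℝ)| ≤ X →
      (Set.ncard {x : ℤ | |(x : ℝ)| ≤ X ∧ ∀ k : ℕ, (k : ℝ) ≤ 20 * Real.log (X / |(d : ℝ)|) →
        |(d : ℝ)| * B < |(((T d)^[k] x : ℤ) : ℝ)|} : ℝ) ≤
      C * X * B ^ (-c) := by
  obtain ⟨C1, c, hC1, hc0, B0, hB02, H1⟩ := count_posP
  refine ⟨c, hc0, 2 * C1 + 3 * B0 ^ c, by positivity, ?_⟩
  intro d hd h3 B X hB hX
  have hD := u2_abs hd
  have hX1 : 1 ≤ X := hD.trans hX
  have hB0 : (0 : ℝ) < B := by linarith
  have hpow : 0 < B ^ (-c) := Real.rpow_pos_of_pos hB0 _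
  set S : Set ℤ := {x : ℤ | |(x : ℝ)| ≤ X ∧
        ∀ k : ℕ, (k : ℝ) ≤ 20 * Real.log (X / |(d : ℝ)|) →
        |(d : ℝ)| * B < |(((T d)^[k] x : ℤ) : ℝ)|} with hS
  have hX0 : 0 ≤ X := by linarith
  by_cases hBB : B0 ≤ B
  · set S1 : Set ℤ := {x : ℤ | 0 < x ∧ (x : ℝ) ≤ X ∧
        ∀ k : ℕ, (k : ℝ) ≤ 20 * Real.log (X / |(d : ℝ)|) →
        |(d : ℝ)| * B < |(((T d)^[k] x : ℤ) : ℝ)|} with hS1
    set S2 : Set ℤ := {x : ℤ | 0 < x ∧ (x : ℝ) ≤ X ∧
        ∀ k : ℕ, (k : ℝ) ≤ 20 * Real.log (X / |(d : ℝ)|) →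
        |(d : ℝ)| * B < |(((T (-d))^[k] x : ℤ) : ℝ)|} with hS2
    have hf1 : S1.Finite := by
      refine (b9_finite X).subset ?_
      rintro x ⟨hx1, hx2, -⟩
      have : (0 : ℝ) < x := by exact_mod_cast hx1
      simp only [Set.mem_setOf_eq]
      rw [abs_of_pos this]; exact hx2
    have hf2 : S2.Finite := by
      refine (b9_finite X).subset ?_
      rintro x ⟨hx1, hx2, -⟩
      have : (0 : ℝ) < x := by exact_mod_cast hx1
      simp only [Set.mem_setOf_eq]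
      rw [abs_of_pos this]; exact hx2
    have hsub : S ⊆ S1 ∪ (Neg.neg '' S2) := by
      rintro x ⟨hx1, hx2⟩
      have h0 := hx2 0 (by
        have : 0 ≤ Real.log (X / |(d : ℝ)|) :=
          Real.log_nonneg (by rwa [one_le_div (by linarith)])
        push_cast; positivity)
      simp only [Function.iterate_zero, id_eq] at h0
      rcases lt_trichotomy x 0 with h | h | h
      · right
        refine ⟨-x, ⟨by omega, ?_, ?_⟩, by simp⟩
        · push_cast
          have : (x : ℝ) < 0 := by exact_mod_cast h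
          rw [abs_of_neg this] at hx1
          exact hx1
        · intro k hk
          rw [T_neg_iterate hd]
          push_cast
          rw [abs_neg]
          exact hx2 k hk
      · exfalso
        rw [h] at h0
        simp at h0
        nlinarith
      · left
        refine ⟨h, ?_, hx2⟩
        have : (0 : ℝ) < x := by exact_mod_cast h
        rw [abs_of_pos this] at hx1
        exact hx1
    have hc : S.ncard ≤ S1.ncard + S2.ncard := by
      calc S.ncard ≤ (S1 ∪ (Neg.neg '' S2)).ncard :=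
            Set.ncard_le_ncard hsub (hf1.union (hf2.image _))
        _ ≤ S1.ncard + (Neg.neg '' S2).ncard := Set.ncard_union_le _ _
        _ ≤ S1.ncard + S2.ncard := Nat.add_le_add_left (Set.ncard_image_le hf2) _
    have e1 := H1 d hd h3 B X hBB hX
    have e2 := H1 (-d) hd.neg (by rwa [dvd_neg]) B X hBB (by
      push_cast
      rwa [abs_neg])
    have hneg : |((-d : ℤ) : ℝ)| = |(d : ℝ)| := by
      push_cast
      rw [abs_neg]
    rw [hneg] at e2
    have hlb : (2 : ℝ) ^ (-(c * Real.logb 2 B)) = B ^ (-c) := by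
      rw [show -(c * Real.logb 2 B) = Real.logb 2 B * (-c) by ring, Real.rpow_mul (by norm_num),
        Real.rpow_logb (by norm_num) (by norm_num) hB0]
    rw [hlb] at e1 e2
    have hcr : (S.ncard : ℝ) ≤ (S1.ncard : ℝ) + (S2.ncard : ℝ) := by exact_mod_cast hc
    have f3 : 0 ≤ 3 * B0 ^ c * X * B ^ (-c) := by positivity
    have : (2 * C1 + 3 * B0 ^ c) * X * B ^ (-c) =
        C1 * X * B ^ (-c) + C1 * X * B ^ (-c) + 3 * B0 ^ c * X * B ^ (-c) := by
      ring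
    rw [this]
    linarith
  · push Not at hBB
    have hle : (S.ncard : ℝ) ≤ 3 * X := b9_ncard_le X hX1 S (fun x hx => hx.1)
    have hl2 : B ^ c ≤ B0 ^ c := Real.rpow_le_rpow hB0.le hBB.le hc0.le
    have h1 : B ^ c * B ^ (-c) = 1 := by
      rw [← Real.rpow_add hB0]; simp
    have h2 : 1 ≤ B0 ^ c * B ^ (-c) := by
      rw [← h1]; exact mul_le_mul_of_nonneg_right hl2 hpow.le
    have g1 : 3 * X ≤ 3 * X * (B0 ^ c * B ^ (-c)) := by nlinarith
    have g2 : 0 ≤ (2 * C1) * X * B ^ (-c) := by positivity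
    nlinarith

end Pool.Agent.Lib.MP_d0d59f_nt.PS
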